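import Mathlib

/-!
Basic tools for the Lean proof of the density Hales–Jewett theorem on three letters:
averages over finite types, indicator functions, sub-space templates.
-/

namespace Pool.Agent.Helper406.Rec

open Finset

/-- average over a finite type -/
noncomputable def avg {Ω : Type} [Fintype Ω] (f : Ω → ℝ) : ℝ :=
  (∑ x, f x) / (Fintype.card Ω : ℝ)

/-- real-valued indicator -/
noncomputable def ind (p : Prop) : ℝ := by
  classical
  exact if p then 1 else 0

lemma ind_true {p : Prop} (h : p) : ind p = 1 := by simp [ind, h]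
lemma ind_false {p : Prop} (h : ¬ p) : ind p = 0 := by simp [ind, h]
lemma ind_nonneg (p : Prop) : 0 ≤ ind p := by
  by_cases h : p
  · rw [ind_true h]; norm_num
  · rw [ind_false h]
lemma ind_le_one (p : Prop) : ind p ≤ 1 := by
  by_cases h : p
  · rw [ind_true h]
  · rw [ind_false h]; norm_num
lemma ind_and (p q : Prop) : ind (p ∧ q) = ind p * ind q := by
  by_cases h : p <;> by_cases h' : q <;> simp [ind, h, h']
lemma ind_not (p : Prop) : ind (¬ p) = 1 - ind p := by
  by_cases h : p <;> simp [ind, h]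
lemma ind_mono {p q : Prop} (h : p → q) : ind p ≤ ind q := by
  by_cases hp : p
  · rw [ind_true hp, ind_true (h hp)]
  · rw [ind_false hp]; exact ind_nonneg _
lemma ind_congr {p q : Prop} (h : p ↔ q) : ind p = ind q := by
  rw [propext h]
lemma ind_sq (p : Prop) : ind p * ind p = ind p := by
  by_cases h : p <;> simp [ind, h]

section avg
variable {Ω Ω' : Type} [Fintype Ω] [Fintype Ω']

lemma avg_congr {f g : Ω → ℝ} (h : ∀ x, f x = g x) : avg f = avg g := by
  have : f = g := funext h
  rw [this]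

lemma avg_mono {f g : Ω → ℝ} (h : ∀ x, f x ≤ g x) : avg f ≤ avg g := by
  unfold avg
  exact div_le_div_of_nonneg_right (Finset.sum_le_sum fun i _ => h i) (Nat.cast_nonneg _)

lemma avg_nonneg {f : Ω → ℝ} (h : ∀ x, 0 ≤ f x) : 0 ≤ avg f := by
  unfold avg
  exact div_nonneg (Finset.sum_nonneg fun i _ => h i) (Nat.cast_nonneg _)

lemma avg_add (f g : Ω → ℝ) : avg (fun x => f x + g x) = avg f + avg g := by
  unfold avg
  rw [Finset.sum_add_distrib, add_div]

lemma avg_sub (f g : Ω → ℝ) : avg (fun x => f x - g x) = avg f - avg g := by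
  unfold avg
  rw [Finset.sum_sub_distrib, sub_div]

lemma avg_mul_left (c : ℝ) (f : Ω → ℝ) : avg (fun x => c * f x) = c * avg f := by
  unfold avg
  rw [← Finset.mul_sum, mul_div_assoc]

lemma avg_mul_right (c : ℝ) (f : Ω → ℝ) : avg (fun x => f x * c) = avg f * c := by
  unfold avg
  rw [← Finset.sum_mul, div_mul_eq_mul_div]

lemma avg_const [Nonempty Ω] (c : ℝ) : avg (fun _ : Ω => c) = c := by
  unfold avg
  have : (Fintype.card Ω : ℝ) ≠ 0 := by
    exact_mod_cast Fintype.card_ne_zero
  simp only [Finset.sum_const, Finset.card_univ, nsmul_eq_mul]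
  field_simp

lemma avg_sum {ι : Type} (s : Finset ι) (f : ι → Ω → ℝ) :
    avg (fun x => ∑ i ∈ s, f i x) = ∑ i ∈ s, avg (f i) := by
  unfold avg
  rw [Finset.sum_comm, Finset.sum_div]

lemma avg_equiv (e : Ω ≃ Ω') (f : Ω' → ℝ) : avg (fun x => f (e x)) = avg f := by
  unfold avg
  rw [Fintype.card_congr e, e.sum_comp]

lemma avg_prod (f : Ω × Ω' → ℝ) : avg f = avg (fun x => avg (fun y => f (x, y))) := by
  unfold avg
  rw [Fintype.sum_prod_type, Fintype.card_prod]
  push_cast
  rw [← Finset.sum_div, div_div, mul_comm]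

lemma avg_comm (f : Ω → Ω' → ℝ) :
    avg (fun x => avg (fun y => f x y)) = avg (fun y => avg (fun x => f x y)) := by
  have h1 := avg_prod (fun p : Ω × Ω' => f p.1 p.2)
  have h2 := avg_prod (fun p : Ω' × Ω => f p.2 p.1)
  have h3 := avg_equiv (Equiv.prodComm Ω Ω') (fun p : Ω' × Ω => f p.2 p.1)
  simp only [Equiv.prodComm_apply, Prod.swap] at h3
  rw [← h1, ← h2]
  exact h3

lemma avg_le_one [Nonempty Ω] {f : Ω → ℝ} (h : ∀ x, f x ≤ 1) : avg f ≤ 1 := by
  calc avg f ≤ avg (fun _ : Ω => (1:ℝ)) := avg_mono h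
    _ = 1 := avg_const 1

lemma exists_ge_avg [Nonempty Ω] (f : Ω → ℝ) : ∃ x, avg f ≤ f x := by
  by_contra hcon
  push Not at hcon
  have h1 : avg f < avg f := by
    have : avg (fun _ : Ω => avg f) = avg f := avg_const _
    calc avg f = (∑ x, f x) / (Fintype.card Ω : ℝ) := rfl
      _ < (∑ _x : Ω, avg f) / (Fintype.card Ω : ℝ) := by
          apply div_lt_div_of_pos_right
          · exact Finset.sum_lt_sum_of_nonempty Finset.univ_nonempty fun i _ => hcon i
          · exact_mod_cast Fintype.card_pos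
      _ = avg (fun _ : Ω => avg f) := rfl
      _ = avg f := this
  exact lt_irrefl _ h1

lemma exists_gt_of_lt_avg [Nonempty Ω] (f : Ω → ℝ) (c : ℝ) (h : c < avg f) : ∃ x, c < f x := by
  obtain ⟨x, hx⟩ := exists_ge_avg f
  exact ⟨x, lt_of_lt_of_le h hx⟩

lemma avg_unique [Unique Ω] (f : Ω → ℝ) : avg f = f default := by
  unfold avg
  simp

/-- product averages -/
lemma avg_pi_prod {n : Type} [Fintype n] [DecidableEq n] (f : n → Ω → ℝ) :
    avg (fun x : n → Ω => ∏ a, f a (x a)) = ∏ a, avg (f a) := by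
  unfold avg
  rw [Fintype.card_pi, Finset.prod_div_distrib, Finset.prod_univ_sum, Fintype.piFinset_univ]
  congr 1
  push_cast
  rfl

lemma avg_pi_map {n B : Type} [Fintype n] [DecidableEq n] [Fintype B] [DecidableEq B]
    (f1 : Ω → B) (f2 : Ω' → B)
    (h : ∀ b, avg (fun t => ind (f1 t = b)) = avg (fun t => ind (f2 t = b)))
    (G : (n → B) → ℝ) :
    avg (fun x : n → Ω => G (fun a => f1 (x a))) = avg (fun x : n → Ω' => G (fun a => f2 (x a))) := by
  have key : ∀ {Ω : Type} [Fintype Ω] (f : Ω → B),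
      avg (fun x : n → Ω => G (fun a => f (x a)))
        = ∑ z : n → B, G z * ∏ a, avg (fun t => ind (f t = z a)) := by
    intro Ω _ f
    have h1 : ∀ x : n → Ω, G (fun a => f (x a))
        = ∑ z : n → B, G z * ∏ a, ind (f (x a) = z a) := by
      intro x
      rw [Finset.sum_eq_single (fun a => f (x a))]
      · rw [Finset.prod_eq_one, mul_one]
        intro a _
        exact ind_true rfl
      · intro z _ hz
        have : ∃ a, f (x a) ≠ z a := by
          by_contra hcon
          push Not at hcon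
          exact hz (funext fun a => (hcon a).symm)
        obtain ⟨a, ha⟩ := this
        rw [Finset.prod_eq_zero (Finset.mem_univ a) (ind_false ha), mul_zero]
      · intro hh
        exact absurd (Finset.mem_univ _) hh
    rw [avg_congr h1, avg_sum]
    apply Finset.sum_congr rfl
    intro z _
    rw [avg_mul_left, avg_pi_prod (fun a t => ind (f t = z a))]
  rw [key f1, key f2]
  apply Finset.sum_congr rfl
  intro z _
  congr 1
  apply Finset.prod_congr rfl
  intro a _
  exact h (z a)

end avg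

/-! ### subspaces -/

abbrev Pt (ι : Type) := ι → Fin 3

/-- combinatorial subspace template -/
structure Sub (κ ι : Type) where
  φ : ι → Fin 3 ⊕ κ
  surj : ∀ k, ∃ i, φ i = Sum.inr k

namespace Sub
variable {κ ι θ : Type}

def app (V : Sub κ ι) (u : Pt κ) : Pt ι := fun i => Sum.elim id u (V.φ i)

def comp (V : Sub κ ι) (U : Sub θ κ) : Sub θ ι where
  φ := fun i => Sum.elim Sum.inl U.φ (V.φ i)
  surj := by
    intro k
    obtain ⟨j, hj⟩ := U.surj k
    obtain ⟨i, hi⟩ := V.surj j
    exact ⟨i, by rw [hi]; simpa using hj⟩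

lemma comp_app (V : Sub κ ι) (U : Sub θ κ) (t : Pt θ) :
    (V.comp U).app t = V.app (U.app t) := by
  funext i
  unfold app comp
  simp only
  cases h : V.φ i with
  | inl a => simp
  | inr k => simp

lemma app_injective (V : Sub κ ι) : Function.Injective V.app := by
  intro u v h
  funext k
  obtain ⟨i, hi⟩ := V.surj k
  have := congrFun h i
  simpa [app, hi] using this

/-- sub-space from an equivalence -/
def ofEquiv (e : ι ≃ κ) : Sub κ ι where
  φ := fun i => Sum.inr (e i)
  surj := fun k => ⟨e.symm k, by simp⟩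

lemma ofEquiv_app (e : ι ≃ κ) (u : Pt κ) : (ofEquiv e).app u = fun i => u (e i) := rfl

end Sub

/-- join -/
def jn {ι κ : Type} (x : Pt ι) (y : Pt κ) : Pt (ι ⊕ κ) := Sum.elim x y

/-- fix the right coordinates -/
def subL {θ ι κ : Type} (V : Sub θ ι) (y : Pt κ) : Sub θ (ι ⊕ κ) where
  φ := Sum.elim V.φ (fun k => Sum.inl (y k))
  surj := by
    intro k
    obtain ⟨i, hi⟩ := V.surj k
    exact ⟨Sum.inl i, by simpa using hi⟩

lemma subL_app {θ ι κ : Type} (V : Sub θ ι) (y : Pt κ) (u : Pt θ) :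
    (subL V y).app u = jn (V.app u) y := by
  funext i
  cases i with
  | inl i => simp [Sub.app, subL, jn]
  | inr i => simp [Sub.app, subL, jn]

/-- fix the left coordinates -/
def subR {θ ι κ : Type} (x : Pt ι) (V : Sub θ κ) : Sub θ (ι ⊕ κ) where
  φ := Sum.elim (fun k => Sum.inl (x k)) V.φ
  surj := by
    intro k
    obtain ⟨i, hi⟩ := V.surj k
    exact ⟨Sum.inr i, by simpa using hi⟩

lemma subR_app {θ ι κ : Type} (x : Pt ι) (V : Sub θ κ) (u : Pt θ) :
    (subR x V).app u = jn x (V.app u) := by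
  funext i
  cases i with
  | inl i => simp [Sub.app, subR, jn]
  | inr i => simp [Sub.app, subR, jn]

/-- identity subspace -/
def Sub.idd (κ : Type) : Sub κ κ := Sub.ofEquiv (Equiv.refl κ)

lemma Sub.idd_app {κ : Type} (u : Pt κ) : (Sub.idd κ).app u = u := rfl

lemma avg_jn {ι κ : Type} [Fintype ι] [Fintype κ] [DecidableEq ι] [DecidableEq κ]
    (f : Pt (ι ⊕ κ) → ℝ) :
    avg f = avg (fun x : Pt ι => avg (fun y : Pt κ => f (jn x y))) := by
  rw [← avg_prod (fun p : Pt ι × Pt κ => f (jn p.1 p.2))]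
  have := avg_equiv (Equiv.sumArrowEquivProdArrow ι κ (Fin 3)).symm f
  rw [← this]
  apply avg_congr
  intro p
  rfl

lemma avg_reindex {ι κ : Type} [Fintype ι] [Fintype κ] [DecidableEq ι] [DecidableEq κ] (e : ι ≃ κ)
    (f : Pt ι → ℝ) :
    avg (fun u : Pt κ => f (fun i => u (e i))) = avg f := by
  have := avg_equiv (Equiv.arrowCongr e.symm (Equiv.refl (Fin 3))) f
  rw [← this]
  apply avg_congr
  intro u
  rfl

/-- collapse of the letter 2 -/
def coll {ι : Type} (r : Fin 3) (x : Pt ι) : Pt ι := fun i => if x i = 2 then r else x i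

lemma coll_coll {ι : Type} (r : Fin 3) (x : Pt ι) (hr : r ≠ 2) : coll r (coll r x) = coll r x := by
  funext i
  unfold coll
  by_cases h : x i = 2
  · simp [h, hr]
  · simp [h]

lemma coll_jn {ι κ : Type} (r : Fin 3) (x : Pt ι) (y : Pt κ) :
    coll r (jn x y) = jn (coll r x) (coll r y) := by
  funext i
  cases i <;> rfl

lemma coll_app {κ ι : Type} (V : Sub κ ι) (r : Fin 3) (hr : r ≠ 2) (u : Pt κ) :
    coll r (V.app (coll r u)) = coll r (V.app u) := by
  funext i
  unfold coll Sub.app
  cases h : V.φ i with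
  | inl a => rfl
  | inr k =>
    simp only [Sum.elim_inr]
    by_cases h2 : u k = 2
    · simp [h2, hr]
    · simp [h2]

/-- insensitive sets -/
def Ins {ι : Type} (r : Fin 3) (E : Pt ι → Prop) : Prop := ∀ x, E x ↔ E (coll r x)

lemma Ins.app {κ ι : Type} {r : Fin 3} (hr : r ≠ 2) {E : Pt ι → Prop} (h : Ins r E) (V : Sub κ ι) :
    Ins r (fun u => E (V.app u)) := by
  intro u
  show E (V.app u) ↔ E (V.app (coll r u))
  rw [h (V.app u), h (V.app (coll r u)), coll_app V r hr u]

lemma Ins.not {ι : Type} {r : Fin 3} {E : Pt ι → Prop} (h : Ins r E) :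
    Ins r (fun u => ¬ E u) := by
  intro u
  show ¬ E u ↔ ¬ E (coll r u)
  rw [h u]

lemma Ins_true {ι : Type} {r : Fin 3} : Ins r (fun _ : Pt ι => True) := by
  intro u
  exact Iff.rfl

lemma Ins.jn_right {ι κ : Type} {r : Fin 3} (hr : r ≠ 2) {E : Pt (ι ⊕ κ) → Prop} (h : Ins r E)
    (x : Pt ι) (y : Pt κ) : E (jn x y) ↔ E (jn x (coll r y)) := by
  rw [h (jn x y), h (jn x (coll r y)), coll_jn, coll_jn, coll_coll r y hr]

lemma Ins.jn_left {ι κ : Type} {r : Fin 3} (hr : r ≠ 2) {E : Pt (ι ⊕ κ) → Prop} (h : Ins r E)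
    (x : Pt ι) (y : Pt κ) : E (jn x y) ↔ E (jn (coll r x) y) := by
  rw [h (jn x y), h (jn (coll r x) y), coll_jn, coll_jn, coll_coll r x hr]

end Pool.Agent.Helper406.Rec
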