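import Pool.Agent.Helper406.Rec.Sperner

/-!
Covering insensitive sets by subspaces (dual form).
-/

namespace Pool.Agent.Helper406.Rec

open Finset

/-- a chosen subspace inside a set, if there is one -/
noncomputable def pick {m : ℕ} {ι : Type} (F : Pt ι → Prop) : Option (Sub (Fin m) ι) := by
  classical
  exact if h : ∃ V : Sub (Fin m) ι, ∀ u, F (V.app u) then some h.choose else none

lemma pick_some {m : ℕ} {ι : Type} (F : Pt ι → Prop) (h : ∃ V : Sub (Fin m) ι, ∀ u, F (V.app u)) :
    ∃ V : Sub (Fin m) ι, pick F = some V ∧ ∀ u, F (V.app u) := by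
  classical
  refine ⟨h.choose, ?_, h.choose_spec⟩
  unfold pick
  rw [dif_pos h]

lemma pick_none {m : ℕ} {ι : Type} (F : Pt ι → Prop) (h : ¬ ∃ V : Sub (Fin m) ι, ∀ u, F (V.app u)) :
    (pick F : Option (Sub (Fin m) ι)) = none := by
  classical
  unfold pick
  rw [dif_neg h]

/-- points on the chosen subspace -/
def OnPick (m : ℕ) {ι : Type} (F : Pt ι → Prop) (x : Pt ι) : Prop :=
  ∃ V : Sub (Fin m) ι, pick F = some V ∧ ∃ u, V.app u = x

lemma OnPick.mem {m : ℕ} {ι : Type} {F : Pt ι → Prop} {x : Pt ι} (h : OnPick m F x) : F x := by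
  classical
  obtain ⟨V, hV, u, rfl⟩ := h
  by_cases hex : ∃ V : Sub (Fin m) ι, ∀ u, F (V.app u)
  · obtain ⟨V', hV', hmem⟩ := pick_some F hex
    rw [hV] at hV'
    have : V = V' := Option.some.inj hV'
    rw [this]; exact hmem u
  · rw [pick_none F hex] at hV
    exact absurd hV (by simp)

/-- sum over the picked subspace -/
lemma sum_onPick {m : ℕ} {ι : Type} [Fintype ι] [DecidableEq ι] (F : Pt ι → Prop)
    (V : Sub (Fin m) ι) (hV : pick F = some V) (h : Pt ι → ℝ) :
    ∑ x, ind (OnPick m F x) * h x = ∑ u : Pt (Fin m), h (V.app u) := by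
  classical
  have h1 : ∀ x, ind (OnPick m F x) * h x = if x ∈ Finset.univ.image V.app then h x else 0 := by
    intro x
    by_cases hx : x ∈ Finset.univ.image V.app
    · rw [if_pos hx]
      have : OnPick m F x := by
        obtain ⟨u, _, hu⟩ := Finset.mem_image.1 hx
        exact ⟨V, hV, u, hu⟩
      rw [ind_true this, one_mul]
    · rw [if_neg hx]
      have : ¬ OnPick m F x := by
        rintro ⟨V', hV', u, hu⟩
        rw [hV] at hV'
        have hVV : V = V' := Option.some.inj hV'
        subst hVV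
        exact hx (Finset.mem_image.2 ⟨u, Finset.mem_univ _, hu⟩)
      rw [ind_false this, zero_mul]
  rw [Finset.sum_congr rfl fun x _ => h1 x, ← Finset.sum_filter]
  have h2 : Finset.univ.filter (fun x => x ∈ Finset.univ.image V.app) = Finset.univ.image V.app := by
    ext x; simp
  rw [h2, Finset.sum_image]
  intro a _ b _ hab
  exact V.app_injective hab

lemma avg_onPick_le {m : ℕ} {ι : Type} [Fintype ι] [DecidableEq ι] (F : Pt ι → Prop)
    (h : Pt ι → ℝ) (c : ℝ) (hc : ∀ V : Sub (Fin m) ι, avg (fun u => h (V.app u)) ≤ c) :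
    avg (fun x => ind (OnPick m F x) * h x) ≤ c * avg (fun x => ind (OnPick m F x)) := by
  classical
  by_cases hex : ∃ V : Sub (Fin m) ι, ∀ u, F (V.app u)
  · obtain ⟨V, hV, _⟩ := pick_some F hex
    have h1 := sum_onPick F V hV h
    have h2 := sum_onPick F V hV (fun _ => 1)
    simp only [mul_one] at h2
    unfold avg
    rw [h1, h2, ← mul_div_assoc]
    apply div_le_div_of_nonneg_right _ (Nat.cast_nonneg _)
    have h3 := hc V
    unfold avg at h3
    rw [div_le_iff₀ (by exact_mod_cast Fintype.card_pos)] at h3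
    simpa using h3
  · have h1 : ∀ x, ind (OnPick m F x) = 0 := by
      intro x
      apply ind_false
      rintro ⟨V, hV, _⟩
      rw [pick_none F hex] at hV
      exact absurd hV (by simp)
    have h2 : avg (fun x => ind (OnPick m F x) * h x) = 0 := by
      unfold avg; simp [h1]
    have h3 : avg (fun x => ind (OnPick m F x)) = 0 := by
      unfold avg; simp [h1]
    rw [h2, h3]; simp

lemma avg_onPick_ge {m : ℕ} {ι : Type} [Fintype ι] [DecidableEq ι] (F : Pt ι → Prop)
    (hex : ∃ V : Sub (Fin m) ι, ∀ u, F (V.app u)) :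
    1 / (3:ℝ) ^ (Fintype.card ι) ≤ avg (fun x => ind (OnPick m F x)) := by
  classical
  obtain ⟨V, hV, _⟩ := pick_some F hex
  have h2 := sum_onPick F V hV (fun _ => 1)
  simp only [mul_one] at h2
  unfold avg
  rw [h2]
  have h3 : (Fintype.card (Pt ι) : ℝ) = 3 ^ (Fintype.card ι) := by simp
  rw [h3]
  apply div_le_div_of_nonneg_right _ (by positivity)
  have h4 : (1:ℝ) ≤ 3 ^ m := one_le_pow₀ (by norm_num)
  simpa using h4

/-- the inductive statement -/
def CovStep (r : Fin 3) (m : ℕ) (β β' : ℝ) (t : ℕ) (κ : Type) [Fintype κ] [DecidableEq κ] : Prop :=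
  ∀ (Ω : Type) [Fintype Ω] [Nonempty Ω] (E : Ω → Pt κ → Prop), (∀ ω, Ins r (E ω)) →
    ∀ h : Ω → Pt κ → ℝ, (∀ ω x, h ω x ≤ 1) → ∀ c : ℝ, 0 ≤ c →
    (∀ ω (V : Sub (Fin m) κ), avg (fun u => h ω (V.app u)) ≤ c) →
    avg (fun ω => avg (fun x => ind (E ω x))) ≤ β + t * β' →
    avg (fun ω => avg (fun x => ind (E ω x) * h ω x)) ≤
      c * avg (fun ω => avg (fun x => ind (E ω x))) + β

lemma covStep_base (r : Fin 3) (m : ℕ) (β β' : ℝ) (κ : Type) [Fintype κ] [DecidableEq κ]
    (Ω : Type) [Fintype Ω] [Nonempty Ω] (E : Ω → Pt κ → Prop)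
    (h : Ω → Pt κ → ℝ) (h1 : ∀ ω x, h ω x ≤ 1) (c : ℝ) (hc : 0 ≤ c)
    (hb : avg (fun ω => avg (fun x => ind (E ω x))) ≤ β) :
    avg (fun ω => avg (fun x => ind (E ω x) * h ω x)) ≤
      c * avg (fun ω => avg (fun x => ind (E ω x))) + β := by
  have h2 : avg (fun ω => avg (fun x => ind (E ω x) * h ω x))
      ≤ avg (fun ω => avg (fun x => ind (E ω x))) := by
    apply avg_mono; intro ω
    apply avg_mono; intro x
    have := mul_le_mul_of_nonneg_left (h1 ω x) (ind_nonneg (E ω x))
    rwa [mul_one] at this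
  have h3 : 0 ≤ avg (fun ω => avg (fun x => ind (E ω x))) :=
    avg_nonneg fun ω => avg_nonneg fun x => ind_nonneg _
  have h4 := mul_nonneg hc h3
  linarith

lemma covStep_reindex (r : Fin 3) (m : ℕ) (β β' : ℝ) (t : ℕ) (κ κ' : Type) [Fintype κ]
    [DecidableEq κ] [Fintype κ'] [DecidableEq κ'] (e : κ ≃ κ') (hκ : CovStep r m β β' t κ') :
    CovStep r m β β' t κ := by
  intro Ω _ _ E hE h h1 c hc hV hb
  -- transport
  have hav : ∀ f : Pt κ → ℝ, avg (fun u : Pt κ' => f ((Sub.ofEquiv e).app u)) = avg f :=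
    fun f => avg_reindex e f
  have key := hκ Ω (fun ω u => E ω ((Sub.ofEquiv e).app u)) ?_
    (fun ω u => h ω ((Sub.ofEquiv e).app u)) (fun ω u => h1 ω _) c hc ?_ ?_
  · have e1 : avg (fun ω => avg (fun x => ind (E ω x) * h ω x))
        = avg (fun ω => avg (fun u : Pt κ' => ind (E ω ((Sub.ofEquiv e).app u)) *
            h ω ((Sub.ofEquiv e).app u))) := by
      apply avg_congr; intro ω
      exact (hav (fun x => ind (E ω x) * h ω x)).symm
    have e2 : avg (fun ω => avg (fun x => ind (E ω x)))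
        = avg (fun ω => avg (fun u : Pt κ' => ind (E ω ((Sub.ofEquiv e).app u)))) := by
      apply avg_congr; intro ω
      exact (hav (fun x => ind (E ω x))).symm
    rw [e1, e2]
    exact key
  · intro ω u
    exact hE ω ((Sub.ofEquiv e).app u)
  · intro ω V
    have := hV ω ((Sub.ofEquiv e).comp V)
    simpa only [Sub.comp_app] using this
  · have e2 : avg (fun ω => avg (fun x => ind (E ω x)))
        = avg (fun ω => avg (fun u : Pt κ' => ind (E ω ((Sub.ofEquiv e).app u)))) := by
      apply avg_congr; intro ω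
      exact (hav (fun x => ind (E ω x))).symm
    rw [← e2]; exact hb

lemma covStep_succ (r : Fin 3) (hr : r ≠ 2) (m : ℕ) (β : ℝ) (hβ : 0 < β) (M : ℕ)
    (hM : ∀ F : Pt (Fin M) → Prop, Ins r F → β / 2 ≤ avg (fun x => ind (F x)) →
      ∃ V : Sub (Fin m) (Fin M), ∀ u, F (V.app u))
    (t : ℕ) (κ : Type) [Fintype κ] [DecidableEq κ]
    (hκ : CovStep r m β (β / 2 * (1 / (3:ℝ) ^ M)) t κ) :
    CovStep r m β (β / 2 * (1 / (3:ℝ) ^ M)) (t + 1) (Fin M ⊕ κ) := by
  classical
  intro Ω _ _ E hE h h1 c hc hV hb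
  by_cases hsmall : avg (fun ω => avg (fun x => ind (E ω x))) ≤ β
  · exact covStep_base r m β 0 (Fin M ⊕ κ) Ω E h h1 c hc hsmall
  push Not at hsmall
  -- slices
  set F : Ω → Pt κ → Pt (Fin M) → Prop := fun ω y x => E ω (jn x y) with hF
  set E' : Ω × Pt (Fin M) → Pt κ → Prop := fun p y => F p.1 y p.2 ∧ ¬ OnPick m (F p.1 y) p.2
    with hE'
  have hFcoll : ∀ ω y, F ω y = F ω (coll r y) := by
    intro ω y
    funext x
    exact propext ((hE ω).jn_right hr x y)
  have hInsF : ∀ ω y, Ins r (F ω y) := fun ω y x => (hE ω).jn_left hr x y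
  have hInsE' : ∀ p, Ins r (E' p) := by
    intro p y
    show (F p.1 y p.2 ∧ ¬ OnPick m (F p.1 y) p.2) ↔
      (F p.1 (coll r y) p.2 ∧ ¬ OnPick m (F p.1 (coll r y)) p.2)
    rw [← hFcoll]
  -- decomposition
  have hdec : ∀ ω x y, ind (E ω (jn x y)) = ind (E' (ω, x) y) + ind (OnPick m (F ω y) x) := by
    intro ω x y
    by_cases ho : OnPick m (F ω y) x
    · have hm : F ω y x := ho.mem
      rw [ind_true ho, ind_true hm, ind_false]
      · norm_num
      · rintro ⟨_, h2⟩
        exact h2 ho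
    · rw [ind_false ho, add_zero]
      apply ind_congr
      constructor
      · intro h2; exact ⟨h2, ho⟩
      · intro h2; exact h2.1
  -- total averages
  have tot1 : avg (fun ω => avg (fun x => ind (E ω x)))
      = avg (fun p => avg (fun y => ind (E' p y)))
        + avg (fun ω => avg (fun y => avg (fun x => ind (OnPick m (F ω y) x)))) := by
    rw [avg_prod (fun p => avg (fun y => ind (E' p y))), ← avg_add]
    apply avg_congr; intro ω
    rw [avg_jn, avg_comm (fun y x => ind (OnPick m (F ω y) x)), ← avg_add]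
    apply avg_congr; intro x
    rw [← avg_add]
    apply avg_congr; intro y
    exact hdec ω x y
  have tot2 : avg (fun ω => avg (fun x => ind (E ω x) * h ω x))
      = avg (fun p : Ω × Pt (Fin M) => avg (fun y => ind (E' p y) * h p.1 (jn p.2 y)))
        + avg (fun ω => avg (fun y => avg (fun x => ind (OnPick m (F ω y) x) * h ω (jn x y)))) := by
    rw [avg_prod (fun p : Ω × Pt (Fin M) => avg (fun y => ind (E' p y) * h p.1 (jn p.2 y))),
      ← avg_add]
    apply avg_congr; intro ω
    rw [avg_jn, avg_comm (fun y x => ind (OnPick m (F ω y) x) * h ω (jn x y)), ← avg_add]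
    apply avg_congr; intro x
    rw [← avg_add]
    apply avg_congr; intro y
    rw [hdec ω x y]; ring
  -- picked part
  have hpick : avg (fun ω => avg (fun y => avg (fun x => ind (OnPick m (F ω y) x) * h ω (jn x y))))
      ≤ c * avg (fun ω => avg (fun y => avg (fun x => ind (OnPick m (F ω y) x)))) := by
    rw [← avg_mul_left]
    apply avg_mono; intro ω
    rw [← avg_mul_left]
    apply avg_mono; intro y
    apply avg_onPick_le
    intro V
    have := hV ω (subL V y)
    simpa only [subL_app] using this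
  -- picked part is big
  have hbig : β / 2 * (1 / (3:ℝ) ^ M) ≤
      avg (fun ω => avg (fun y => avg (fun x => ind (OnPick m (F ω y) x)))) := by
    have h3 : avg (fun ω => avg (fun x => ind (E ω x)))
        = avg (fun ω => avg (fun y => avg (fun x => ind (F ω y x)))) := by
      apply avg_congr; intro ω
      rw [avg_jn, avg_comm]
    have h4 : ∀ ω y, (avg (fun x => ind (F ω y x)) - β / 2) * (1 / (3:ℝ) ^ M)
        ≤ avg (fun x => ind (OnPick m (F ω y) x)) := by
      intro ω y
      by_cases hd : β / 2 ≤ avg (fun x => ind (F ω y x))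
      · have h5 := avg_onPick_ge (F ω y) (hM (F ω y) (hInsF ω y) hd)
        simp only [Fintype.card_fin] at h5
        refine le_trans ?_ h5
        have h6 : avg (fun x => ind (F ω y x)) ≤ 1 := avg_le_one fun x => ind_le_one _
        have h7 : (0:ℝ) ≤ 1 / (3:ℝ) ^ M := by positivity
        nlinarith
      · push Not at hd
        have h6 : 0 ≤ avg (fun x => ind (OnPick m (F ω y) x)) := avg_nonneg fun x => ind_nonneg _
        have h7 : (0:ℝ) ≤ 1 / (3:ℝ) ^ M := by positivity
        nlinarith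
    have h5 : avg (fun ω => avg (fun y => (avg (fun x => ind (F ω y x)) - β / 2) *
        (1 / (3:ℝ) ^ M)))
        = (avg (fun ω => avg (fun y => avg (fun x => ind (F ω y x)))) - β / 2) *
          (1 / (3:ℝ) ^ M) := by
      have h6 : ∀ ω, avg (fun y => (avg (fun x => ind (F ω y x)) - β / 2) * (1 / (3:ℝ) ^ M))
          = (avg (fun y => avg (fun x => ind (F ω y x))) - β / 2) * (1 / (3:ℝ) ^ M) := by
        intro ω
        rw [avg_mul_right, avg_sub, avg_const]
      rw [avg_congr h6, avg_mul_right, avg_sub, avg_const]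
    have h6 : avg (fun ω => avg (fun y => (avg (fun x => ind (F ω y x)) - β / 2) *
        (1 / (3:ℝ) ^ M))) ≤
        avg (fun ω => avg (fun y => avg (fun x => ind (OnPick m (F ω y) x)))) := by
      apply avg_mono; intro ω
      apply avg_mono; intro y
      exact h4 ω y
    rw [h5, ← h3] at h6
    refine le_trans ?_ h6
    apply mul_le_mul_of_nonneg_right _ (by positivity)
    linarith
  -- apply the induction hypothesis
  have key := hκ (Ω × Pt (Fin M)) E' hInsE' (fun p y => h p.1 (jn p.2 y))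
    (fun p y => h1 _ _) c hc ?_ ?_
  · rw [tot2, tot1]
    have : c * (avg (fun p => avg (fun y => ind (E' p y)))
        + avg (fun ω => avg (fun y => avg (fun x => ind (OnPick m (F ω y) x)))))
        = c * avg (fun p => avg (fun y => ind (E' p y)))
        + c * avg (fun ω => avg (fun y => avg (fun x => ind (OnPick m (F ω y) x)))) := by ring
    rw [this]
    linarith
  · intro p V
    have := hV p.1 (subR p.2 V)
    simpa only [subR_app] using this
  · rw [tot1] at hb
    push_cast at hb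
    linarith

lemma covStep_all (r : Fin 3) (hr : r ≠ 2) (m : ℕ) (β : ℝ) (hβ : 0 < β) (M : ℕ)
    (hM : ∀ F : Pt (Fin M) → Prop, Ins r F → β / 2 ≤ avg (fun x => ind (F x)) →
      ∃ V : Sub (Fin m) (Fin M), ∀ u, F (V.app u)) (t : ℕ) :
    ∀ (κ : Type) [Fintype κ] [DecidableEq κ], t * M ≤ Fintype.card κ →
    CovStep r m β (β / 2 * (1 / (3:ℝ) ^ M)) t κ := by
  induction t with
  | zero =>
    intro κ _ _ _ Ω _ _ E _ h h1 c hc _ hb
    apply covStep_base r m β 0 κ Ω E h h1 c hc
    simpa using hb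
  | succ t ih =>
    intro κ _ _ hκ
    have hMκ : M + t * M ≤ Fintype.card κ := by
      have : (t + 1) * M = M + t * M := by ring
      omega
    have e : κ ≃ Fin M ⊕ Fin (Fintype.card κ - M) := by
      apply Fintype.equivOfCardEq
      simp
      omega
    apply covStep_reindex r m β _ (t + 1) κ _ e
    apply covStep_succ r hr m β hβ M hM t
    apply ih
    simp
    omega

theorem cover_one (r : Fin 3) (hr : r ≠ 2) (m : ℕ) (β : ℝ) (hβ : 0 < β) :
    ∃ N : ℕ, ∀ (κ : Type) [Fintype κ] [DecidableEq κ], N ≤ Fintype.card κ →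
      ∀ E : Pt κ → Prop, Ins r E → ∀ h : Pt κ → ℝ, (∀ x, h x ≤ 1) → ∀ c : ℝ, 0 ≤ c →
      (∀ V : Sub (Fin m) κ, avg (fun u => h (V.app u)) ≤ c) →
      avg (fun x => ind (E x) * h x) ≤ c * avg (fun x => ind (E x)) + β := by
  obtain ⟨M, hM⟩ := sperner m (β / 2) (by linarith)
  have hM' : ∀ F : Pt (Fin M) → Prop, Ins r F → β / 2 ≤ avg (fun x => ind (F x)) →
      ∃ V : Sub (Fin m) (Fin M), ∀ u, F (V.app u) := by
    intro F hF hd
    obtain ⟨V, hV⟩ := hM (Fin M) (by simp) F hd
    refine ⟨V, ?_⟩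
    intro u
    have h1 := hF.app hr V u
    have h1' : F (V.app u) ↔ F (V.app (coll r u)) := h1
    rw [h1']
    apply hV
    intro k
    unfold coll
    by_cases h2 : u k = 2
    · simp [h2, hr]
    · simp [h2]
  obtain ⟨t, ht⟩ := exists_nat_ge (1 / (β / 2 * (1 / (3:ℝ) ^ M)))
  refine ⟨t * M, ?_⟩
  intro κ _ _ hκ E hE h h1 c hc hV
  have key := covStep_all r hr m β hβ M hM' t κ hκ Unit (fun _ => E) (fun _ => hE) (fun _ => h)
    (fun _ => h1) c hc (fun _ => hV) ?_
  · simpa only [avg_unique] using key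
  · rw [avg_unique]
    have hp : 0 < β / 2 * (1 / (3:ℝ) ^ M) := by positivity
    rw [div_le_iff₀ hp] at ht
    have : avg (fun x => ind (E x)) ≤ 1 := avg_le_one fun x => ind_le_one _
    linarith

theorem cover_two (m : ℕ) (β : ℝ) (hβ : 0 < β) :
    ∃ N : ℕ, ∀ (κ : Type) [Fintype κ] [DecidableEq κ], N ≤ Fintype.card κ →
      ∀ E0 E1 : Pt κ → Prop, Ins 0 E0 → Ins 1 E1 → ∀ g : Pt κ → ℝ, (∀ x, g x ≤ 1) →
      ∀ c : ℝ, 0 ≤ c → (∀ V : Sub (Fin m) κ, avg (fun u => g (V.app u)) ≤ c) →
      avg (fun x => ind (E0 x ∧ E1 x) * g x) ≤ c * avg (fun x => ind (E0 x ∧ E1 x)) + 2 * β := by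
  obtain ⟨m1, hm1⟩ := cover_one 1 (by decide) m β hβ
  obtain ⟨N, hN⟩ := cover_one 0 (by decide) m1 β hβ
  refine ⟨N, ?_⟩
  intro κ _ _ hκ E0 E1 hE0 hE1 g hg c hc hV
  have key := hN κ hκ E0 hE0 (fun x => ind (E1 x) * (g x - c)) ?_ β hβ.le ?_
  · have h1 : avg (fun x => ind (E0 x) * (ind (E1 x) * (g x - c)))
        = avg (fun x => ind (E0 x ∧ E1 x) * g x) - c * avg (fun x => ind (E0 x ∧ E1 x)) := by
      rw [← avg_mul_left, ← avg_sub]
      apply avg_congr; intro x
      rw [ind_and]; ring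
    rw [h1] at key
    have h2 : avg (fun x => ind (E0 x)) ≤ 1 ∨ IsEmpty (Pt κ) := by
      left
      exact avg_le_one fun x => ind_le_one _
    have h3 : avg (fun x => ind (E0 x)) ≤ 1 := avg_le_one fun x => ind_le_one _
    nlinarith
  · intro x
    have h1 := ind_nonneg (E1 x)
    have h2 := ind_le_one (E1 x)
    have h3 := hg x
    nlinarith
  · intro V
    have h1 := hm1 (Fin m1) (by simp) (fun u => E1 (V.app u)) (hE1.app (by decide) V)
      (fun u => g (V.app u)) (fun u => hg _) c hc ?_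
    · have h2 : avg (fun u => ind (E1 (V.app u)) * (g (V.app u) - c))
          = avg (fun u => ind (E1 (V.app u)) * g (V.app u))
            - c * avg (fun u => ind (E1 (V.app u))) := by
        rw [← avg_mul_left, ← avg_sub]
        apply avg_congr; intro x
        ring
      rw [h2]
      linarith
    · intro U
      have := hV (V.comp U)
      simpa only [Sub.comp_app] using this

end Pool.Agent.Helper406.Rec
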