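import Pool.Agent.Helper406.Rec.Cover

/-!
The density Hales–Jewett theorem for three letters.
-/

namespace Pool.Agent.Helper406.Rec

open Finset

def LineFree (ι : Type) (A : Pt ι → Prop) : Prop :=
  ∀ L : Sub Unit ι, ¬ ∀ a : Fin 3, A (L.app (fun _ => a))

lemma lineFree_closed : Closed LineFree := by
  intro κ ι V A hA L hL
  apply hA (V.comp L)
  intro a
  rw [Sub.comp_app]
  exact hL a

lemma avg_restrict {n : Type} [Fintype n] [DecidableEq n] (p : n → Prop) [DecidablePred p]
    (H : Pt {a // p a} → ℝ) :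
    avg (fun u : Pt n => H (fun k => u k)) = avg H := by
  have h1 := avg_equiv (Equiv.piEquivPiSubtypeProd p (fun _ => Fin 3))
    (fun q : Pt {a // p a} × Pt {a // ¬ p a} => H q.1)
  have h2 : avg (fun q : Pt {a // p a} × Pt {a // ¬ p a} => H q.1) = avg H := by
    rw [avg_prod]
    apply avg_congr; intro x
    exact avg_const (Ω := Pt {a // ¬ p a}) (H x)
  rw [h2] at h1
  rw [← h1]
  rfl

lemma avg_no_two (κ : Type) [Fintype κ] [DecidableEq κ] :
    avg (fun u : Pt κ => ind (∀ k, u k ≠ 2)) = (2 / 3 : ℝ) ^ (Fintype.card κ) := by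
  have h1 : ∀ u : Pt κ, ind (∀ k, u k ≠ 2) = ∏ k, ind (u k ≠ 2) := by
    intro u
    by_cases h : ∀ k, u k ≠ 2
    · rw [ind_true h, Finset.prod_eq_one]
      intro k _
      exact ind_true (h k)
    · rw [ind_false h]
      push Not at h
      obtain ⟨k, hk⟩ := h
      rw [Finset.prod_eq_zero (Finset.mem_univ k)]
      apply ind_false
      simpa using hk
  rw [avg_congr h1, avg_pi_prod (fun _ (t : Fin 3) => ind (t ≠ 2))]
  have h2 : avg (fun t : Fin 3 => ind (t ≠ 2)) = 2 / 3 := by
    unfold avg
    rw [Fin.sum_univ_three]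
    rw [ind_true (by decide), ind_true (by decide), ind_false (by decide)]
    norm_num
  rw [Finset.prod_congr rfl fun k _ => h2, Finset.prod_const, Finset.card_univ]

lemma cnt (n a b : ℕ) (hab : a ≤ b) (hbn : b ≤ n) :
    ∑ s : Fin n, ind (a ≤ (s : ℕ) ∧ (s : ℕ) < b) = (b : ℝ) - a := by
  classical
  have h1 : ∀ s : Fin n, ind (a ≤ (s : ℕ) ∧ (s : ℕ) < b)
      = (fun t : ℕ => if t ∈ Finset.Ico a b then (1:ℝ) else 0) s := by
    intro s
    by_cases h : a ≤ (s : ℕ) ∧ (s : ℕ) < b
    · rw [ind_true h]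
      simp [h.1, h.2]
    · rw [ind_false h]
      simp only [Finset.mem_Ico]
      rw [if_neg h]
  rw [Finset.sum_congr rfl fun s _ => h1 s,
    Fin.sum_univ_eq_sum_range (fun t : ℕ => if t ∈ Finset.Ico a b then (1:ℝ) else 0) n,
    ← Finset.sum_filter]
  have h2 : (Finset.range n).filter (fun t => t ∈ Finset.Ico a b) = Finset.Ico a b := by
    ext t
    simp only [Finset.mem_filter, Finset.mem_range, Finset.mem_Ico]
    omega
  rw [h2]
  simp [Nat.cast_sub hab]

/-- probability that few coordinates are free -/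
lemma bad_bound {Ω n : Type} [Fintype Ω] [Nonempty Ω] [Fintype n] [DecidableEq n]
    (F : Ω → Prop) [DecidablePred F] (p : ℝ) (hp : p ≤ avg (fun s => ind (F s))) (M1 : ℕ) :
    avg (fun τ : n → Ω => ind (Fintype.card {a // F (τ a)} < M1))
      ≤ 2 ^ M1 * (1 - p / 2) ^ (Fintype.card n) := by
  have h1 : ∀ τ : n → Ω, ind (Fintype.card {a // F (τ a)} < M1)
      ≤ 2 ^ M1 * ∏ a, (1 - ind (F (τ a)) / 2) := by
    intro τ
    have hprod : ∏ a, (1 - ind (F (τ a)) / 2) = (1 / 2 : ℝ) ^ (Fintype.card {a // F (τ a)}) := by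
      rw [Fintype.card_subtype]
      rw [← Finset.prod_const, Finset.prod_filter]
      apply Finset.prod_congr rfl
      intro a _
      by_cases h : F (τ a)
      · rw [ind_true h, if_pos h]; norm_num
      · rw [ind_false h, if_neg h]; norm_num
    rw [hprod]
    by_cases h : Fintype.card {a // F (τ a)} < M1
    · rw [ind_true h]
      rw [one_div, inv_pow, ← div_eq_mul_inv, le_div_iff₀ (by positivity), one_mul]
      exact pow_le_pow_right₀ (by norm_num) h.le
    · rw [ind_false h]
      positivity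
  refine (avg_mono h1).trans ?_
  rw [avg_mul_left]
  apply mul_le_mul_of_nonneg_left _ (by positivity)
  rw [avg_pi_prod (fun _ (s : Ω) => 1 - ind (F s) / 2)]
  rw [Finset.prod_const, Finset.card_univ]
  have h2 : avg (fun s : Ω => 1 - ind (F s) / 2) = 1 - avg (fun s => ind (F s)) / 2 := by
    rw [avg_sub, avg_const]
    congr 1
    have : ∀ s : Ω, ind (F s) / 2 = ind (F s) * (1/2) := fun s => by ring
    rw [avg_congr this, avg_mul_right]
    ring
  rw [h2]
  apply pow_le_pow_left₀
  · have : avg (fun s => ind (F s)) ≤ 1 := avg_le_one fun x => ind_le_one _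
    linarith
  · linarith

/-- the letter assigned to a threshold -/
def ltr (K i j : ℕ) (s : Fin (3 * K)) : Fin 3 :=
  if (s : ℕ) < K + i then 1 else if (s : ℕ) < K + j then 2 else 0

def Free (K i j : ℕ) (s : Fin (3 * K)) : Prop :=
  K + i - (j - i) ≤ (s : ℕ) ∧ (s : ℕ) < K + j + (j - i)

instance (K i j : ℕ) : DecidablePred (Free K i j) := fun s => by
  unfold Free; exact inferInstance

lemma ind_free_ltr (K i j : ℕ) (hij : i < j) (hj : j ≤ K) (b : Fin 3) :
    ∑ s : Fin (3 * K), ind (Free K i j s ∧ ltr K i j s = b) = (j : ℝ) - i := by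
  have hcast : ((j - i : ℕ) : ℝ) = (j : ℝ) - i := by
    rw [Nat.cast_sub hij.le]
  rcases (show b = 0 ∨ b = 1 ∨ b = 2 by revert b; decide) with rfl | rfl | rfl
  · have h1 : ∀ s : Fin (3 * K), ind (Free K i j s ∧ ltr K i j s = 0)
        = ind (K + j ≤ (s : ℕ) ∧ (s : ℕ) < K + j + (j - i)) := by
      intro s
      apply ind_congr
      unfold Free ltr
      constructor
      · rintro ⟨⟨h1, h2⟩, h3⟩
        split_ifs at h3 with h4 h5
        · exact absurd h3 (by decide)
        · exact absurd h3 (by decide)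
        · exact ⟨by omega, h2⟩
      · rintro ⟨h1, h2⟩
        refine ⟨⟨by omega, h2⟩, ?_⟩
        rw [if_neg (by omega), if_neg (by omega)]
    rw [Finset.sum_congr rfl fun s _ => h1 s, cnt _ _ _ (by omega) (by omega)]
    push_cast
    rw [hcast]; ring
  · have h1 : ∀ s : Fin (3 * K), ind (Free K i j s ∧ ltr K i j s = 1)
        = ind (K + i - (j - i) ≤ (s : ℕ) ∧ (s : ℕ) < K + i) := by
      intro s
      apply ind_congr
      unfold Free ltr
      constructor
      · rintro ⟨⟨h1, h2⟩, h3⟩
        split_ifs at h3 with h4 h5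
        · exact ⟨h1, by omega⟩
        · exact absurd h3 (by decide)
        · exact absurd h3 (by decide)
      · rintro ⟨h1, h2⟩
        refine ⟨⟨h1, by omega⟩, ?_⟩
        rw [if_pos (by omega)]
    rw [Finset.sum_congr rfl fun s _ => h1 s, cnt _ _ _ (by omega) (by omega)]
    rw [Nat.cast_sub (by omega), hcast]
    push_cast
    ring
  · have h1 : ∀ s : Fin (3 * K), ind (Free K i j s ∧ ltr K i j s = 2)
        = ind (K + i ≤ (s : ℕ) ∧ (s : ℕ) < K + j) := by
      intro s
      apply ind_congr
      unfold Free ltr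
      constructor
      · rintro ⟨⟨h1, h2⟩, h3⟩
        split_ifs at h3 with h4 h5
        · exact absurd h3 (by decide)
        · exact ⟨by omega, h5⟩
        · exact absurd h3 (by decide)
      · rintro ⟨h1, h2⟩
        refine ⟨⟨by omega, by omega⟩, ?_⟩
        rw [if_neg (by omega), if_pos (by omega)]
    rw [Finset.sum_congr rfl fun s _ => h1 s, cnt _ _ _ (by omega) (by omega)]
    push_cast
    ring

/-- the second model -/
def ltr2 (K i j : ℕ) (p : Fin (3 * K) × Fin 3) : Fin 3 :=
  if Free K i j p.1 then p.2 else ltr K i j p.1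

lemma law_eq (K i j : ℕ) (hij : i < j) (hj : j ≤ K) (b : Fin 3) :
    avg (fun s => ind (ltr K i j s = b)) = avg (fun p => ind (ltr2 K i j p = b)) := by
  rw [avg_prod]
  have h1 : ∀ s : Fin (3 * K), avg (fun u : Fin 3 => ind (ltr2 K i j (s, u) = b))
      = ind (ltr K i j s = b) - ind (Free K i j s ∧ ltr K i j s = b)
        + ind (Free K i j s) * (1 / 3) := by
    intro s
    by_cases hs : Free K i j s
    · have h2 : ∀ u : Fin 3, ind (ltr2 K i j (s, u) = b) = ind (u = b) := by
        intro u
        unfold ltr2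
        rw [if_pos hs]
      rw [avg_congr h2]
      have h3 : avg (fun u : Fin 3 => ind (u = b)) = 1 / 3 := by
        unfold avg
        rw [Finset.sum_eq_single b]
        · rw [ind_true rfl]; norm_num
        · intro u _ hu; exact ind_false hu
        · intro h; exact absurd (Finset.mem_univ _) h
      have h4 : ind (Free K i j s ∧ ltr K i j s = b) = ind (ltr K i j s = b) :=
        ind_congr ⟨fun h => h.2, fun h => ⟨hs, h⟩⟩
      rw [h3, h4, ind_true hs]; ring
    · have h2 : ∀ u : Fin 3, ind (ltr2 K i j (s, u) = b) = ind (ltr K i j s = b) := by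
        intro u
        unfold ltr2
        rw [if_neg hs]
      rw [avg_congr h2, avg_const, ind_false hs,
        ind_false (p := Free K i j s ∧ ltr K i j s = b) (fun h => hs h.1)]
      ring
  rw [avg_congr h1, avg_add, avg_sub, avg_mul_right]
  have h5 : avg (fun s => ind (Free K i j s ∧ ltr K i j s = b))
      = avg (fun s => ind (Free K i j s)) * (1 / 3) := by
    unfold avg
    rw [ind_free_ltr K i j hij hj b]
    have h6 : ∑ s : Fin (3 * K), ind (Free K i j s) = 3 * ((j : ℝ) - i) := by
      have h7 : ∀ s : Fin (3 * K), ind (Free K i j s)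
          = ∑ b : Fin 3, ind (Free K i j s ∧ ltr K i j s = b) := by
        intro s
        rw [Finset.sum_eq_single (ltr K i j s)]
        · apply ind_congr
          exact ⟨fun h => ⟨h, rfl⟩, fun h => h.1⟩
        · intro b _ hb
          apply ind_false
          rintro ⟨_, h⟩
          exact hb h.symm
        · intro h; exact absurd (Finset.mem_univ _) h
      rw [Finset.sum_congr rfl fun s _ => h7 s, Finset.sum_comm,
        Finset.sum_congr rfl fun b _ => ind_free_ltr K i j hij hj b]
      simp only [Finset.sum_const, Finset.card_univ, Fintype.card_fin, nsmul_eq_mul]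
      push_cast
      ring
    rw [h6]
    ring
  linarith

lemma free_density (K i j : ℕ) (hij : i < j) (hj : j ≤ K) :
    1 / (K : ℝ) ≤ avg (fun s => ind (Free K i j s)) := by
  have h6 : ∑ s : Fin (3 * K), ind (Free K i j s) = 3 * ((j : ℝ) - i) := by
    have h7 : ∀ s : Fin (3 * K), ind (Free K i j s)
        = ∑ b : Fin 3, ind (Free K i j s ∧ ltr K i j s = b) := by
      intro s
      rw [Finset.sum_eq_single (ltr K i j s)]
      · apply ind_congr
        exact ⟨fun h => ⟨h, rfl⟩, fun h => h.1⟩
      · intro b _ hb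
        apply ind_false
        rintro ⟨_, h⟩
        exact hb h.symm
      · intro h; exact absurd (Finset.mem_univ _) h
    rw [Finset.sum_congr rfl fun s _ => h7 s, Finset.sum_comm,
      Finset.sum_congr rfl fun b _ => ind_free_ltr K i j hij hj b]
    simp only [Finset.sum_const, Finset.card_univ, Fintype.card_fin, nsmul_eq_mul]
    push_cast
    ring
  unfold avg
  rw [h6]
  have hK : (0:ℝ) < K := by
    have : 0 < K := by omega
    exact_mod_cast this
  have h8 : (1:ℝ) ≤ (j : ℝ) - i := by
    have : (i : ℝ) + 1 ≤ j := by exact_mod_cast hij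
    linarith
  simp only [Fintype.card_fin]
  push_cast
  rw [div_le_div_iff₀ hK (by positivity)]
  nlinarith

/-- the random subspace -/
def rsub (K i j : ℕ) {n : Type} (τ : n → Fin (3 * K)) : Sub {a // Free K i j (τ a)} n where
  φ := fun a => if h : Free K i j (τ a) then Sum.inr ⟨a, h⟩ else Sum.inl (ltr K i j (τ a))
  surj := by
    rintro ⟨a, ha⟩
    exact ⟨a, by simp [ha]⟩

lemma rsub_app (K i j : ℕ) {n : Type} (τ : n → Fin (3 * K)) (u : Pt n) :
    (rsub K i j τ).app (fun k => u k) = fun a => ltr2 K i j (τ a, u a) := by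
  funext a
  unfold Sub.app rsub ltr2
  by_cases h : Free K i j (τ a)
  · simp [h]
  · simp [h]

lemma coll_rsub (K i j : ℕ) (hij : i < j) {n : Type} (τ : n → Fin (3 * K))
    (r : Fin 3) (u : Pt {a // Free K i j (τ a)}) :
    coll r ((rsub K i j τ).app u) = (rsub K i j τ).app (coll r u) := by
  funext a
  unfold coll Sub.app rsub
  by_cases h : Free K i j (τ a)
  · simp [h]
  · simp only [h, dite_false, Sum.elim_inl, id]
    rw [if_neg]
    unfold ltr
    unfold Free at h
    split_ifs with h1 h2
    · decide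
    · exfalso
      apply h
      omega
    · decide

lemma final_step (κ : Type) [Fintype κ] [DecidableEq κ] (AV : Pt κ → Prop)
    (hAVlf : LineFree κ AV) (δ η γ θ σ : ℝ) (n1 N2 L0 : ℕ)
    (hδp : 0 < δ) (hη : η = σ / 5) (hσ : 0 < σ) (hσdef : σ = δ * θ / 2)
    (hθ : 0 < θ) (hγ : 0 < γ) (hγη : γ ≤ η)
    (hVs : ∀ V : Sub (Fin n1) κ, avg (fun u => ind (AV (V.app u))) ≤ δ + γ)
    (hN2 : ∀ (κ : Type) [Fintype κ] [DecidableEq κ], N2 ≤ Fintype.card κ →
      ∀ E0 E1 : Pt κ → Prop, Ins 0 E0 → Ins 1 E1 → ∀ g : Pt κ → ℝ, (∀ x, g x ≤ 1) →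
      ∀ c : ℝ, 0 ≤ c → (∀ V : Sub (Fin n1) κ, avg (fun u => g (V.app u)) ≤ c) →
      avg (fun x => ind (E0 x ∧ E1 x) * g x) ≤ c * avg (fun x => ind (E0 x ∧ E1 x))
        + 2 * (σ / 40))
    (hL0 : (2 / 3 : ℝ) ^ L0 < σ / 5) (hcard : n1 + N2 + L0 ≤ Fintype.card κ)
    (hbτ : θ / 2 ≤ avg (fun u => ind (AV (coll 0 u) ∧ AV (coll 1 u))))
    (haτ : δ - η ≤ avg (fun u => ind (AV u))) : False := by
  classical
  set D0 : Pt κ → Prop := fun u => AV (coll 0 u) with hD0
  set D1 : Pt κ → Prop := fun u => AV (coll 1 u) with hD1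
  have hI0 : Ins 0 D0 := by
    intro u
    rw [hD0]
    simp only
    rw [coll_coll 0 u (by decide)]
  have hI1 : Ins 1 D1 := by
    intro u
    rw [hD1]
    simp only
    rw [coll_coll 1 u (by decide)]
  have c1 := hN2 κ (by omega) (fun u => ¬ D0 u) (fun _ => True) hI0.not Ins_true
    (fun u => ind (AV u)) (fun u => ind_le_one _) (δ + γ) (by linarith) hVs
  have c2 := hN2 κ (by omega) D0 (fun u => ¬ D1 u) hI0 hI1.not
    (fun u => ind (AV u)) (fun u => ind_le_one _) (δ + γ) (by linarith) hVs
  have hpt : ∀ u, ind (AV u) ≤ ind (¬ D0 u ∧ True) * ind (AV u)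
      + ind (D0 u ∧ ¬ D1 u) * ind (AV u) + ind (∀ k, u k ≠ 2) := by
    intro u
    by_cases h0 : D0 u
    · by_cases h1 : D1 u
      · by_cases h2 : ∀ k, u k ≠ 2
        · rw [ind_true h2]
          have e1 := ind_le_one (AV u)
          have e2 := ind_nonneg (AV u)
          have e3 := mul_nonneg (ind_nonneg (¬ D0 u ∧ True)) e2
          have e4 := mul_nonneg (ind_nonneg (D0 u ∧ ¬ D1 u)) e2
          linarith
        · have h3 : ¬ AV u := by
            intro h4
            push Not at h2
            obtain ⟨k, hk⟩ := h2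
            let L : Sub Unit κ :=
              { φ := fun k => if u k = 2 then Sum.inr () else Sum.inl (u k)
                surj := fun _ => ⟨k, by simp [hk]⟩ }
            apply hAVlf L
            intro a
            rcases (show a = 0 ∨ a = 1 ∨ a = 2 by revert a; decide) with rfl | rfl | rfl
            · have : L.app (fun _ => 0) = coll 0 u := by
                funext k
                simp only [Sub.app, L, coll]
                by_cases h5 : u k = 2
                · simp [h5]
                · simp [h5]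
              rw [this]; exact h0
            · have : L.app (fun _ => 1) = coll 1 u := by
                funext k
                simp only [Sub.app, L, coll]
                by_cases h5 : u k = 2
                · simp [h5]
                · simp [h5]
              rw [this]; exact h1
            · have : L.app (fun _ => 2) = u := by
                funext k
                simp only [Sub.app, L]
                by_cases h5 : u k = 2
                · simp [h5]
                · simp [h5]
              rw [this]; exact h4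
          rw [ind_false h3]
          have := ind_nonneg (∀ k, u k ≠ 2)
          simp only [mul_zero]
          linarith
      · rw [ind_true (show D0 u ∧ ¬ D1 u from ⟨h0, h1⟩)]
        have e2 := ind_nonneg (AV u)
        have e3 := mul_nonneg (ind_nonneg (¬ D0 u ∧ True)) e2
        have := ind_nonneg (∀ k, u k ≠ 2)
        linarith
    · rw [ind_true (show ¬ D0 u ∧ True from ⟨h0, trivial⟩)]
      have e2 := ind_nonneg (AV u)
      have e4 := mul_nonneg (ind_nonneg (D0 u ∧ ¬ D1 u)) e2
      have := ind_nonneg (∀ k, u k ≠ 2)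
      linarith
  have h1 := avg_mono hpt
  rw [avg_add, avg_add, avg_no_two] at h1
  have h2 : avg (fun u => ind (¬ D0 u ∧ True)) + avg (fun u => ind (D0 u ∧ ¬ D1 u))
      = 1 - avg (fun u => ind (D0 u ∧ D1 u)) := by
    rw [← avg_add, ← avg_const (Ω := Pt κ) 1, ← avg_sub]
    apply avg_congr; intro u
    by_cases h0 : D0 u <;> by_cases h1 : D1 u <;> simp [ind, h0, h1]
  have h3 : θ / 2 ≤ avg (fun u => ind (D0 u ∧ D1 u)) := hbτ
  have h4 : δ - η ≤ avg (fun u => ind (AV u)) := haτ
  have h5 : (2 / 3 : ℝ) ^ (Fintype.card κ) ≤ σ / 5 := by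
    refine le_trans ?_ hL0.le
    apply pow_le_pow_of_le_one (by norm_num) (by norm_num)
    omega
  have h6 : (δ + γ) * avg (fun u => ind (¬ D0 u ∧ True))
      + (δ + γ) * avg (fun u => ind (D0 u ∧ ¬ D1 u)) ≤ (δ + γ) * (1 - θ / 2) := by
    rw [← mul_add, h2]
    apply mul_le_mul_of_nonneg_left _ (by linarith)
    linarith
  have h7 : (δ + γ) * (1 - θ / 2) ≤ δ + γ - σ := by
    rw [hσdef]
    nlinarith
  linarith

theorem dhj3 (δ0 : ℝ) (hδ0 : 0 < δ0) : ∃ d : ℕ, ∀ (ι : Type) [Fintype ι] [DecidableEq ι],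
    d ≤ Fintype.card ι → ∀ A : Pt ι → Prop, δ0 ≤ avg (fun x => ind (A x)) →
      ∃ L : Sub Unit ι, ∀ a : Fin 3, A (L.app (fun _ => a)) := by
  classical
  by_contra hcon
  push Not at hcon
  have hnot : ∀ n : ℕ, ∃ m' ≥ n, ∃ A : Pt (Fin m') → Prop, LineFree (Fin m') A ∧
      δ0 ≤ avg (fun x => ind (A x)) := by
    intro n
    obtain ⟨ι, i1, i2, hι, E, hE, hno⟩ := hcon n
    have e : ι ≃ Fin (Fintype.card ι) := Fintype.equivFin ι
    refine ⟨Fintype.card ι, hι, fun u => E ((Sub.ofEquiv e).app u), ?_, ?_⟩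
    · apply lineFree_closed
      intro L hL
      obtain ⟨a, ha⟩ := hno L
      exact ha (hL a)
    · have h2 : avg (fun x : Pt (Fin (Fintype.card ι)) => ind (E ((Sub.ofEquiv e).app x)))
          = avg (fun x => ind (E x)) := avg_reindex e (fun x => ind (E x))
      rw [h2]; exact hE
  obtain ⟨δ, hδ, hE1, hR⟩ := regular _ lineFree_closed δ0 hδ0 hnot
  have hδp : 0 < δ := lt_of_lt_of_le hδ0 hδ
  have hδ1 : δ ≤ 1 := by
    obtain ⟨N, _, A, _, hsl⟩ := hR 0 (1/2) (by norm_num) 0
    by_contra hc
    push Not at hc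
    -- use all η
    obtain ⟨N, _, A, _, hsl⟩ := hR 0 ((δ - 1) / 2) (by linarith) 0
    have h1 := hsl (fun _ => 0)
    have h2 : avg (fun y : Pt (Fin N) => ind (A (jn (fun _ => 0) y))) ≤ 1 :=
      avg_le_one fun x => ind_le_one _
    linarith
  obtain ⟨K, hK⟩ := exists_nat_ge (4 / δ)
  have hKδ : 4 ≤ (K : ℝ) * δ := by
    rw [div_le_iff₀ hδp] at hK
    exact hK
  have hK4 : (4:ℝ) ≤ K := by nlinarith
  have hK0 : 0 < K := by
    have : (0:ℝ) < K := by linarith
    exact_mod_cast this
  set θ : ℝ := 1 / ((K + 1 : ℝ) ^ 2) with hθdef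
  have hθ : 0 < θ := by positivity
  have hθ1 : θ ≤ 1 := by
    rw [hθdef, div_le_one (by positivity)]
    nlinarith
  set σ : ℝ := δ * θ / 2 with hσdef
  have hσ : 0 < σ := by positivity
  have hσ1 : σ ≤ 1 := by rw [hσdef]; nlinarith
  set η : ℝ := σ / 5 with hηdef
  have hη : 0 < η := by positivity
  have hη1 : η ≤ 1 := by linarith
  set γ : ℝ := η * θ / 16 with hγdef
  have hγ : 0 < γ := by positivity
  have hγη : γ ≤ η := by rw [hγdef]; nlinarith
  obtain ⟨n1, hn1⟩ := hE1 γ hγ
  obtain ⟨N2, hN2⟩ := cover_two n1 (σ / 40) (by positivity)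
  obtain ⟨L0, hL0⟩ : ∃ L0 : ℕ, (2 / 3 : ℝ) ^ L0 < σ / 5 :=
    exists_pow_lt_of_lt_one (by positivity) (by norm_num)
  set M1 : ℕ := n1 + N2 + L0 with hM1
  have hq0 : (0:ℝ) ≤ 1 - (1 / (K:ℝ)) / 2 := by
    have h1 : (1 / (K:ℝ)) ≤ 1 := by
      rw [div_le_one (by linarith)]; linarith
    linarith
  have hq1 : 1 - (1 / (K:ℝ)) / 2 < 1 := by
    have h1 : 0 < (1 / (K:ℝ)) := by
      apply div_pos one_pos; linarith
    linarith
  obtain ⟨M, hM⟩ : ∃ M : ℕ, (1 - (1 / (K:ℝ)) / 2) ^ M < (η * θ / 8) / 2 ^ M1 :=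
    exists_pow_lt_of_lt_one (by positivity) hq1
  have hbadsmall : (2:ℝ) ^ M1 * (1 - (1 / (K:ℝ)) / 2) ^ M ≤ η * θ / 8 := by
    rw [lt_div_iff₀ (by positivity)] at hM
    linarith
  obtain ⟨N, _, A, hA, hsl⟩ := hR M γ hγ 0
  haveI : Nonempty (Fin (3 * K)) := ⟨⟨0, by omega⟩⟩
  -- pigeonhole
  let Z : ℕ → (Fin M → Fin (3 * K)) → Pt (Fin M) :=
    fun i τ a => if (τ a : ℕ) < K + i then 1 else 0
  have hsum : 2 ≤ ∑ i : Fin (K + 1),
      avg (fun p : (Fin M → Fin (3 * K)) × Pt (Fin N) => ind (A (jn (Z i p.1) p.2))) := by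
    have h1 : ∑ _i : Fin (K + 1), (δ / 2) ≤ ∑ i : Fin (K + 1),
        avg (fun p : (Fin M → Fin (3 * K)) × Pt (Fin N) => ind (A (jn (Z i p.1) p.2))) := by
      apply Finset.sum_le_sum
      intro i _
      rw [avg_prod]
      have h2 : avg (fun _ : Fin M → Fin (3 * K) => δ / 2) ≤
          avg (fun τ : Fin M → Fin (3 * K) => avg (fun y => ind (A (jn (Z i τ) y)))) := by
        apply avg_mono
        intro τ
        have h3 := hsl (Z i τ)
        have h4 : γ ≤ δ / 2 := by
          have : σ ≤ δ / 2 := by rw [hσdef]; nlinarith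
          linarith
        linarith
      rwa [avg_const] at h2
    have h2 : ∑ _i : Fin (K + 1), (δ / 2) = (K + 1 : ℝ) * (δ / 2) := by
      simp
    rw [h2] at h1
    nlinarith
  obtain ⟨i, j, hij, hpair⟩ := pigeon K
    (fun i (p : (Fin M → Fin (3 * K)) × Pt (Fin N)) => A (jn (Z i p.1) p.2)) hsum
  have hi : (i : ℕ) < j := hij
  have hjK : (j : ℕ) ≤ K := by have := j.2; omega
  obtain ⟨i, hiK⟩ := i
  obtain ⟨j, hjK'⟩ := j
  simp only at hi hjK hpair
  -- the subspaces
  set a : (Fin M → Fin (3 * K)) → Pt (Fin N) → ℝ := fun τ y =>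
    avg (fun u => ind (A (jn ((rsub K i j τ).app u) y))) with ha
  set b : (Fin M → Fin (3 * K)) → Pt (Fin N) → ℝ := fun τ y =>
    avg (fun u => ind (A (jn ((rsub K i j τ).app (coll 0 u)) y) ∧
      A (jn ((rsub K i j τ).app (coll 1 u)) y))) with hb
  have hb_avg : θ ≤ avg (fun τ => avg (fun y => b τ y)) := by
    rw [avg_prod] at hpair
    set G : Pt (Fin M) → ℝ := fun x => avg (fun y : Pt (Fin N) =>
      ind (A (jn (coll 0 x) y) ∧ A (jn (coll 1 x) y))) with hG
    have h1 : avg (fun τ : Fin M → Fin (3 * K) => avg (fun y : Pt (Fin N) =>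
        ind (A (jn (Z i τ) y) ∧ A (jn (Z j τ) y))))
        = avg (fun τ : Fin M → Fin (3 * K) => G (fun a => ltr K i j (τ a))) := by
      apply avg_congr; intro τ
      rw [hG]
      apply avg_congr; intro y
      have e1 : Z i τ = coll 0 (fun a => ltr K i j (τ a)) := by
        funext a
        simp only [Z, coll, ltr]
        split_ifs <;> first | rfl | omega | simp_all
      have e2 : Z j τ = coll 1 (fun a => ltr K i j (τ a)) := by
        funext a
        simp only [Z, coll, ltr]
        split_ifs <;> first | rfl | omega | simp_all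
      rw [e1, e2]
    have h2 := avg_pi_map (n := Fin M) (ltr K i j) (ltr2 K i j) (law_eq K i j hi hjK) G
    have h3 : avg (fun x : Fin M → Fin (3 * K) × Fin 3 => G (fun a => ltr2 K i j (x a)))
        = avg (fun τ : Fin M → Fin (3 * K) => avg (fun u : Pt (Fin M) =>
            G (fun a => ltr2 K i j (τ a, u a)))) := by
      rw [← avg_prod (fun q : (Fin M → Fin (3 * K)) × Pt (Fin M) =>
        G (fun a => ltr2 K i j (q.1 a, q.2 a)))]
      rw [← avg_equiv (Equiv.arrowProdEquivProdArrow (Fin M) (fun _ => Fin (3 * K))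
        (fun _ => Fin 3)) (fun q : (Fin M → Fin (3 * K)) × Pt (Fin M) =>
        G (fun a => ltr2 K i j (q.1 a, q.2 a)))]
      rfl
    have h4 : ∀ τ : Fin M → Fin (3 * K), avg (fun u : Pt (Fin M) =>
        G (fun a => ltr2 K i j (τ a, u a))) = avg (fun y => b τ y) := by
      intro τ
      have h5 : ∀ u : Pt (Fin M), G (fun a => ltr2 K i j (τ a, u a))
          = (fun u' : Pt {a // Free K i j (τ a)} => G ((rsub K i j τ).app u')) (fun k => u k) := by
        intro u
        simp only
        rw [rsub_app]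
      rw [avg_congr h5, avg_restrict (fun a => Free K i j (τ a))
        (fun u' : Pt {a // Free K i j (τ a)} => G ((rsub K i j τ).app u'))]
      rw [hG, hb]
      simp only
      rw [avg_comm]
      apply avg_congr; intro y
      apply avg_congr; intro u'
      rw [coll_rsub K i j hi, coll_rsub K i j hi]
    have h6 : avg (fun τ => avg (fun y => b τ y))
        = avg (fun τ : Fin M → Fin (3 * K) => avg (fun y : Pt (Fin N) =>
        ind (A (jn (Z i τ) y) ∧ A (jn (Z j τ) y)))) := by
      rw [h1, h2, h3]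
      exact (avg_congr h4).symm
    rw [h6]
    exact hpair
  have ha_avg : δ - γ ≤ avg (fun τ => avg (fun y => a τ y)) := by
    have h1 : avg (fun _ : Fin M → Fin (3 * K) => δ - γ) ≤ avg (fun τ => avg (fun y => a τ y)) := by
      apply avg_mono; intro τ
      rw [ha]
      simp only
      rw [avg_comm]
      have h2 : avg (fun _ : Pt {a // Free K i j (τ a)} => δ - γ) ≤
          avg (fun u => avg (fun y => ind (A (jn ((rsub K i j τ).app u) y)))) := by
        apply avg_mono; intro u
        exact hsl _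
      rwa [avg_const] at h2
    rwa [avg_const] at h1
  have hbad : avg (fun τ : Fin M → Fin (3 * K) =>
      ind (Fintype.card {a // Free K i j (τ a)} < M1)) ≤ η * θ / 8 := by
    have h1 := bad_bound (n := Fin M) (Free K i j) (1 / (K:ℝ)) (free_density K i j hi hjK) M1
    simp only [Fintype.card_fin] at h1
    exact h1.trans hbadsmall
  -- existence of a good pair
  have hgood : ∃ τ y, M1 ≤ Fintype.card {a // Free K i j (τ a)} ∧ δ - η ≤ a τ y ∧
      θ / 2 ≤ b τ y := by
    by_contra hc
    push Not at hc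
    have hpt : ∀ τ y, a τ y + η * b τ y ≤ (δ + γ + η * (θ / 2)) +
        2 * ind (Fintype.card {a // Free K i j (τ a)} < M1) := by
      intro τ y
      have hb0 : 0 ≤ b τ y := avg_nonneg fun u => ind_nonneg _
      have hb1 : b τ y ≤ 1 := avg_le_one fun u => ind_le_one _
      have ha1 : a τ y ≤ 1 := avg_le_one fun u => ind_le_one _
      by_cases hM' : Fintype.card {a // Free K i j (τ a)} < M1
      · rw [ind_true hM']
        nlinarith
      · rw [ind_false hM']
        push Not at hM'
        have ha2 : a τ y ≤ δ + γ := by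
          have h1 := hn1 {a // Free K i j (τ a)} (by omega)
            (fun u => A ((subL (rsub K i j τ) y).app u)) (lineFree_closed _ _ _ _ hA)
          simpa only [subL_app] using h1
        by_cases hb2 : θ / 2 ≤ b τ y
        · have h3 : a τ y < δ - η := by
            by_contra h4
            push Not at h4
            exact absurd (hc τ y hM' h4) (not_lt.2 hb2)
          nlinarith
        · push Not at hb2
          nlinarith
    have h1 : avg (fun τ => avg (fun y => a τ y + η * b τ y)) ≤
        avg (fun τ : Fin M → Fin (3 * K) => avg (fun _ : Pt (Fin N) =>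
          (δ + γ + η * (θ / 2)) + 2 * ind (Fintype.card {a // Free K i j (τ a)} < M1))) := by
      apply avg_mono; intro τ
      apply avg_mono; intro y
      exact hpt τ y
    have h2 : avg (fun τ => avg (fun y => a τ y + η * b τ y))
        = avg (fun τ => avg (fun y => a τ y)) + η * avg (fun τ => avg (fun y => b τ y)) := by
      rw [← avg_mul_left, ← avg_add]
      apply avg_congr; intro τ
      rw [← avg_mul_left, ← avg_add]
    have h3 : avg (fun τ : Fin M → Fin (3 * K) => avg (fun _ : Pt (Fin N) =>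
          (δ + γ + η * (θ / 2)) + 2 * ind (Fintype.card {a // Free K i j (τ a)} < M1)))
        = (δ + γ + η * (θ / 2)) + 2 * avg (fun τ : Fin M → Fin (3 * K) =>
          ind (Fintype.card {a // Free K i j (τ a)} < M1)) := by
      rw [← avg_mul_left, ← avg_const (Ω := Fin M → Fin (3 * K)) (δ + γ + η * (θ / 2)), ← avg_add]
      apply avg_congr; intro τ
      rw [avg_const, avg_const]
    rw [h2, h3] at h1
    have h4 : η * θ ≤ η * avg (fun τ => avg (fun y => b τ y)) :=
      mul_le_mul_of_nonneg_left hb_avg hη.le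
    have h5 : 0 < η * θ := by positivity
    nlinarith
  obtain ⟨τ, y, hcard, haτ, hbτ⟩ := hgood
  -- final contradiction
  have hAVlf : LineFree {a // Free K i j (τ a)}
      (fun u => A (jn ((rsub K i j τ).app u) y)) := by
    have := lineFree_closed _ _ (subL (rsub K i j τ) y) A hA
    simpa only [subL_app] using this
  refine final_step {a // Free K i j (τ a)} (fun u => A (jn ((rsub K i j τ).app u) y)) hAVlf
    δ η γ θ σ n1 N2 L0 hδp hηdef hσ hσdef hθ hγ hγη ?_ hN2 hL0 hcard hbτ haτ
  intro V
  exact hn1 (Fin n1) (by simp) (fun u => A (jn ((rsub K i j τ).app (V.app u)) y))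
    (lineFree_closed _ _ V _ hAVlf)

end Pool.Agent.Helper406.Rec
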