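import Pool.Agent.Helper406.Rec.Pos
import Pool.Agent.Helper406.Rec.Limit

/-!
The finite periodic sets without corners of side in the digit set.
-/

namespace Pool.Agent.Helper406.Rec

open Finset

/-! ### digit functions modulo nine -/

def g1 (x : ZMod 9) : ZMod 9 := ((x.val % 3 : ℕ) : ZMod 9) - x ^ 2

def h1 (x y : ZMod 9) : ZMod 9 := 2 * x * y + if x.val % 3 = 2 then 3 * y else 0

set_option maxRecDepth 10000 in
lemma digit_identity : ∀ x y s : ZMod 9, (s = 0 ∨ s = 1 ∨ s = 3 ∨ s = 4) →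
    g1 (x + s) - g1 x + (h1 x (y + s) - h1 x y) = if s = 4 then 3 else 0 := by
  decide

/-! ### scales -/

lemma Lam_pos (i : ℕ) : 0 < Lam i := by unfold Lam; positivity

lemma Lam_dvd {i j : ℕ} (h : i < j) : 9 * Lam i ∣ Lam j := by
  unfold Lam
  obtain ⟨k, hk⟩ : ∃ k, j ^ 2 = i ^ 2 + (k + 1) := by
    have h1 : i ^ 2 < j ^ 2 := Nat.pow_lt_pow_left h (by norm_num)
    exact ⟨j ^ 2 - i ^ 2 - 1, by omega⟩
  rw [hk, pow_add, pow_succ]
  exact ⟨6561 ^ k * 729, by ring⟩

lemma Lam_mono {i j : ℕ} (h : i ≤ j) : Lam i ≤ Lam j := by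
  unfold Lam
  exact Nat.pow_le_pow_right (by norm_num) (Nat.pow_le_pow_left h 2)

lemma le_Lam (i : ℕ) : i ≤ Lam i := by
  unfold Lam
  have h1 : i ≤ i ^ 2 := by nlinarith [Nat.zero_le i, sq_nonneg (i : ℤ)] 
  exact h1.trans (Nat.lt_pow_self (by norm_num)).le

/-- maximal lower part -/
def Rr (i : ℕ) : ℕ := ∑ j ∈ range i, 4 * Lam j

lemma Lam_succ_ge (i : ℕ) : 80 * 2 ^ i * Lam i ≤ Lam (i + 1) := by
  unfold Lam
  have h1 : (i + 1) ^ 2 = i ^ 2 + (i + (i + 1)) := by ring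
  rw [h1, pow_add, pow_add]
  have h2 : 2 ^ i ≤ 6561 ^ i := Nat.pow_le_pow_left (by norm_num) i
  have h3 : 80 ≤ 6561 ^ (i + 1) := by
    calc 80 ≤ 6561 ^ 1 := by norm_num
      _ ≤ 6561 ^ (i + 1) := Nat.pow_le_pow_right (by norm_num) (by omega)
  calc 80 * 2 ^ i * 6561 ^ i ^ 2 = 6561 ^ i ^ 2 * (2 ^ i * 80) := by ring
    _ ≤ 6561 ^ i ^ 2 * (6561 ^ i * 6561 ^ (i + 1)) := by
        apply Nat.mul_le_mul_left
        exact Nat.mul_le_mul h2 h3

lemma Rr_le (i : ℕ) : 8 * 2 ^ i * Rr i ≤ Lam i := by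
  induction i with
  | zero => simp [Rr, Lam]
  | succ i ih =>
    have h1 : Rr (i + 1) = Rr i + 4 * Lam i := by
      unfold Rr
      rw [Finset.sum_range_succ]
    have h2 : Rr i ≤ Lam i := by
      have : 1 ≤ 2 ^ i := Nat.one_le_two_pow
      nlinarith
    have h3 : Rr (i + 1) ≤ 5 * Lam i := by omega
    calc 8 * 2 ^ (i + 1) * Rr (i + 1) ≤ 8 * 2 ^ (i + 1) * (5 * Lam i) :=
          Nat.mul_le_mul_left _ h3
      _ = 80 * 2 ^ i * Lam i := by ring
      _ ≤ Lam (i + 1) := Lam_succ_ge i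

/-- digit -/
def dig (i x : ℕ) : ZMod 9 := ((x / Lam i : ℕ) : ZMod 9)

def GoodAt (i x : ℕ) : Prop := x % Lam i + Rr i < Lam i

lemma dig_add (K i x : ℕ) (s : ℕ → ℕ) (hs : ∀ j, s j ≤ 4) (hi : i < K) (hg : GoodAt i x) :
    dig i (x + ∑ j ∈ range K, s j * Lam j) = dig i x + (s i : ZMod 9) := by
  have hsplit : ∑ j ∈ range K, s j * Lam j
      = ∑ j ∈ range i, s j * Lam j + s i * Lam i + ∑ j ∈ Ico (i + 1) K, s j * Lam j := by
    rw [← Finset.sum_range_succ, Finset.sum_range_add_sum_Ico _ hi]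
  have hlow : ∑ j ∈ range i, s j * Lam j ≤ Rr i := by
    unfold Rr
    exact Finset.sum_le_sum fun j _ => Nat.mul_le_mul_right _ (hs j)
  have hhigh : 9 * Lam i ∣ ∑ j ∈ Ico (i + 1) K, s j * Lam j := by
    apply Finset.dvd_sum
    intro j hj
    rw [Finset.mem_Ico] at hj
    exact Dvd.dvd.mul_left (Lam_dvd (by omega)) _
  obtain ⟨h, hh⟩ := hhigh
  unfold GoodAt at hg
  unfold dig
  have hL := Lam_pos i
  have e1 : x + ∑ j ∈ range K, s j * Lam j
      = (x % Lam i + ∑ j ∈ range i, s j * Lam j) + Lam i * (x / Lam i + s i + 9 * h) := by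
    rw [hsplit, hh]
    have := Nat.mod_add_div x (Lam i)
    nlinarith
  rw [e1, Nat.add_mul_div_left _ _ hL, Nat.div_eq_of_lt (by omega)]
  have h9 : (9 : ZMod 9) = 0 := by decide
  push_cast
  rw [h9]
  ring

lemma dig_mod (i K x : ℕ) (hi : i < K) : dig i (x % Lam K) = dig i x := by
  obtain ⟨u, hu⟩ := Lam_dvd hi
  unfold dig
  have hL := Lam_pos i
  have e1 : x = x % Lam K + Lam i * (9 * (u * (x / Lam K))) := by
    have := Nat.mod_add_div x (Lam K)
    rw [hu] at this ⊢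
    nlinarith
  have h9 : (9 : ZMod 9) = 0 := by decide
  conv_rhs => rw [e1, Nat.add_mul_div_left _ _ hL]
  push_cast
  rw [h9]
  ring

/-! ### counting -/

lemma sum_zmod (N : ℕ) [NeZero N] (f : ℕ → ℝ) :
    ∑ x : ZMod N, f x.val = ∑ k ∈ range N, f k := by
  obtain ⟨n, rfl⟩ : ∃ n, N = n + 1 := ⟨N - 1, by have := NeZero.ne N; omega⟩
  exact Fin.sum_univ_eq_sum_range f (n + 1)

lemma count_bad (L M R : ℕ) (hR : R ≤ L) :
    ∑ k ∈ range (L * M), ind (¬ (k % L + R < L)) = (M : ℝ) * R := by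
  induction M with
  | zero => simp
  | succ M ih =>
    rw [Nat.mul_succ, Finset.sum_range_add, ih]
    have h1 : ∀ y ∈ range L, ind (¬ ((L * M + y) % L + R < L))
        = ind (L - R ≤ y ∧ y < L) := by
      intro y hy
      rw [Finset.mem_range] at hy
      rw [Nat.mul_add_mod, Nat.mod_eq_of_lt hy]
      apply ind_congr
      omega
    rw [Finset.sum_congr rfl h1]
    have h2 := cnt L (L - R) L (by omega) le_rfl
    rw [Fin.sum_univ_eq_sum_range (fun y => ind (L - R ≤ y ∧ y < L)) L] at h2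
    rw [h2, Nat.cast_sub hR]
    push_cast
    ring

def GoodAll (K x : ℕ) : Prop := ∀ i < K, GoodAt i x

instance (K : ℕ) : NeZero (Lam K) := ⟨(Lam_pos K).ne'⟩

lemma avg_bad (K : ℕ) : avg (fun x : ZMod (Lam K) => ind (¬ GoodAll K x.val)) ≤ 1 / 4 := by
  classical
  have h1 : ∀ x : ZMod (Lam K), ind (¬ GoodAll K x.val) ≤
      ∑ i ∈ range K, ind (¬ GoodAt i x.val) := by
    intro x
    by_cases h : GoodAll K x.val
    · rw [ind_false (not_not.2 h)]
      exact Finset.sum_nonneg fun i _ => ind_nonneg _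
    · have h' := h
      unfold GoodAll at h'
      push Not at h'
      obtain ⟨i, hi, hb⟩ := h'
      rw [ind_true h, ← ind_true hb]
      exact Finset.single_le_sum (f := fun i => ind (¬ GoodAt i x.val))
        (fun i _ => ind_nonneg _) (Finset.mem_range.2 hi)
  refine (avg_mono h1).trans ?_
  rw [avg_sum]
  have h2 : ∀ i ∈ range K, avg (fun x : ZMod (Lam K) => ind (¬ GoodAt i x.val))
      ≤ (1 / 8) * (1 / 2 : ℝ) ^ i := by
    intro i hi
    rw [Finset.mem_range] at hi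
    obtain ⟨u, hu⟩ := Lam_dvd hi
    have hL := Lam_pos i
    have hRL : Rr i ≤ Lam i := by
      have h3 := Rr_le i
      have h4 : 1 ≤ 2 ^ i := Nat.one_le_two_pow
      nlinarith
    unfold avg
    rw [sum_zmod (Lam K) (fun k => ind (¬ GoodAt i k)), ZMod.card]
    have h5 : Lam K = Lam i * (9 * u) := by rw [hu]; ring
    have h6 : ∑ k ∈ range (Lam K), ind (¬ GoodAt i k) = ((9 * u : ℕ) : ℝ) * Rr i := by
      rw [h5]
      exact count_bad (Lam i) (9 * u) (Rr i) hRL
    rw [h6]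
    have hu0 : 0 < 9 * u := by
      rcases Nat.eq_zero_or_pos u with h | h
      · have := Lam_pos K
        rw [h5, h] at this
        simp at this
      · omega
    have h7 : (Lam K : ℝ) = (Lam i : ℝ) * ((9 * u : ℕ) : ℝ) := by
      rw [h5]; push_cast; ring
    rw [h7]
    have hLr : (0:ℝ) < Lam i := by exact_mod_cast hL
    have hur : (0:ℝ) < ((9 * u : ℕ) : ℝ) := by exact_mod_cast hu0
    rw [div_le_iff₀ (by positivity)]
    have h8 : (8:ℝ) * 2 ^ i * Rr i ≤ Lam i := by exact_mod_cast Rr_le i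
    have h9 : (1 / 2 : ℝ) ^ i * 2 ^ i = 1 := by rw [← mul_pow]; norm_num
    have h10 : (Rr i : ℝ) ≤ 1 / 8 * (1 / 2) ^ i * Lam i := by
      have : (1 / 8 * (1 / 2 : ℝ) ^ i) * (8 * 2 ^ i * Rr i) ≤ (1 / 8 * (1 / 2 : ℝ) ^ i) * Lam i :=
        mul_le_mul_of_nonneg_left h8 (by positivity)
      have e : (1 / 8 * (1 / 2 : ℝ) ^ i) * (8 * 2 ^ i * Rr i) = Rr i := by
        calc _ = ((1 / 2 : ℝ) ^ i * 2 ^ i) * Rr i := by ring
          _ = Rr i := by rw [h9, one_mul]
      rw [e] at this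
      exact this
    calc ((9 * u : ℕ) : ℝ) * Rr i ≤ ((9 * u : ℕ) : ℝ) * (1 / 8 * (1 / 2) ^ i * Lam i) :=
          mul_le_mul_of_nonneg_left h10 hur.le
      _ = 1 / 8 * (1 / 2) ^ i * (↑(Lam i) * ↑(9 * u)) := by ring
  refine (Finset.sum_le_sum h2).trans ?_
  rw [← Finset.mul_sum]
  have := sum_geometric_two_le K
  linarith

/-! ### the sets -/

def Gt (K x : ℕ) : ZMod 9 := ∑ i ∈ range K, g1 (dig i x)
def Ht (K x y : ℕ) : ZMod 9 := ∑ i ∈ range K, h1 (dig i x) (dig i y)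

def AA (K : ℕ) (g h : ZMod 9) (x : ZMod (Lam K) × ZMod (Lam K)) : Prop :=
  (GoodAll K x.1.val ∧ GoodAll K x.2.val) ∧ Gt K x.1.val = g ∧ Ht K x.1.val x.2.val = h

lemma exists_dense (K : ℕ) : ∃ g h : ZMod 9, 1 / 162 ≤ avg (fun x => ind (AA K g h x)) := by
  classical
  by_contra hcon
  push Not at hcon
  have h1 : ∀ x : ZMod (Lam K) × ZMod (Lam K), 1 - ind (¬ GoodAll K x.1.val)
      - ind (¬ GoodAll K x.2.val) ≤ ∑ p : ZMod 9 × ZMod 9, ind (AA K p.1 p.2 x) := by
    intro x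
    by_cases ha : GoodAll K x.1.val
    · by_cases hb : GoodAll K x.2.val
      · rw [ind_false (not_not.2 ha), ind_false (not_not.2 hb)]
        have h2 : AA K (Gt K x.1.val) (Ht K x.1.val x.2.val) x := ⟨⟨ha, hb⟩, rfl, rfl⟩
        have h3 := Finset.single_le_sum (f := fun p : ZMod 9 × ZMod 9 => ind (AA K p.1 p.2 x))
          (fun p _ => ind_nonneg _) (Finset.mem_univ (Gt K x.1.val, Ht K x.1.val x.2.val))
        simp only at h3
        rw [ind_true h2] at h3
        linarith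
      · rw [ind_true hb]
        have := ind_nonneg (¬ GoodAll K x.1.val)
        have h4 : 0 ≤ ∑ p : ZMod 9 × ZMod 9, ind (AA K p.1 p.2 x) :=
          Finset.sum_nonneg fun p _ => ind_nonneg _
        linarith
    · rw [ind_true ha]
      have := ind_nonneg (¬ GoodAll K x.2.val)
      have h4 : 0 ≤ ∑ p : ZMod 9 × ZMod 9, ind (AA K p.1 p.2 x) :=
        Finset.sum_nonneg fun p _ => ind_nonneg _
      linarith
  have h2 := avg_mono h1
  rw [avg_sum, avg_sub, avg_sub, avg_const] at h2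
  have h3 : avg (fun x : ZMod (Lam K) × ZMod (Lam K) => ind (¬ GoodAll K x.1.val)) ≤ 1 / 4 := by
    rw [avg_prod]
    simp only [avg_const]
    exact avg_bad K
  have h4 : avg (fun x : ZMod (Lam K) × ZMod (Lam K) => ind (¬ GoodAll K x.2.val)) ≤ 1 / 4 := by
    rw [avg_prod]
    simp only
    rw [avg_const]
    exact avg_bad K
  have h5 : ∑ p : ZMod 9 × ZMod 9, avg (fun x => ind (AA K p.1 p.2 x)) <
      ∑ _p : ZMod 9 × ZMod 9, (1 / 162 : ℝ) :=
    Finset.sum_lt_sum_of_nonempty Finset.univ_nonempty fun p _ => hcon p.1 p.2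
  have h6 : ∑ _p : ZMod 9 × ZMod 9, (1 / 162 : ℝ) = 1 / 2 := by
    rw [Finset.sum_const, Finset.card_univ, Fintype.card_prod, ZMod.card]
    norm_num
  linarith

/-- normal form of the elements of the digit set below `K` -/
lemma inS_normal {n K : ℕ} (hn : InS n) (hK : n < K) :
    ∃ s : ℕ → ℕ, (∀ i, s i = 0 ∨ s i = 1 ∨ s i = 3 ∨ s i = 4) ∧
      ¬ 3 ∣ ((range K).filter (fun i => s i = 4)).card ∧ n = ∑ i ∈ range K, s i * Lam i := by
  classical
  obtain ⟨J, s, hs, h3, hsum⟩ := hn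
  have hbig : ∀ i ∈ J, s i ≠ 0 → i < K := by
    intro i hi hne
    have h1 : s i * Lam i ≤ n := by
      rw [hsum]
      exact Finset.single_le_sum (f := fun i => s i * Lam i) (fun _ _ => Nat.zero_le _) hi
    have h2 : Lam i ≤ s i * Lam i := Nat.le_mul_of_pos_left _ (Nat.pos_of_ne_zero hne)
    have h4 := le_Lam i
    omega
  refine ⟨fun i => if i ∈ J then s i else 0, ?_, ?_, ?_⟩
  · intro i
    by_cases hi : i ∈ J
    · simp only [hi, if_true]; exact hs i hi
    · simp [hi]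
  · have : (range K).filter (fun i => (if i ∈ J then s i else 0) = 4)
        = J.filter (fun i => s i = 4) := by
      ext i
      simp only [Finset.mem_filter, Finset.mem_range]
      constructor
      · rintro ⟨_, h⟩
        by_cases hi : i ∈ J
        · simp only [hi, if_true] at h
          exact ⟨hi, h⟩
        · simp [hi] at h
      · rintro ⟨hi, h⟩
        refine ⟨hbig i hi (by omega), ?_⟩
        simp [hi, h]
    rw [this]; exact h3
  · rw [hsum]
    have h5 : ∑ i ∈ range K, (if i ∈ J then s i else 0) * Lam i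
        = ∑ i ∈ (range K).filter (fun i => i ∈ J), s i * Lam i := by
      rw [Finset.sum_filter]
      apply Finset.sum_congr rfl; intro i _
      by_cases hi : i ∈ J <;> simp [hi]
    rw [h5]
    symm
    apply Finset.sum_subset
    · intro i hi
      exact (Finset.mem_filter.1 hi).2
    · intro i hi hni
      have : s i = 0 := by
        by_contra hne
        exact hni (Finset.mem_filter.2 ⟨Finset.mem_range.2 (hbig i hi hne), hi⟩)
      rw [this, zero_mul]

lemma no_corner (K : ℕ) (g h : ZMod 9) (n : ℕ) (hn : InS n) (hK : n < K)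
    (x : ZMod (Lam K) × ZMod (Lam K)) :
    ¬ (AA K g h x ∧ AA K g h (x.1 + n, x.2) ∧ AA K g h (x.1, x.2 + n)) := by
  classical
  rintro ⟨⟨⟨ha, hb⟩, hg, hh⟩, ⟨_, hg', _⟩, ⟨_, _, hh'⟩⟩
  obtain ⟨s, hs, h3, hsum⟩ := inS_normal hn hK
  have hs4 : ∀ j, s j ≤ 4 := by
    intro j
    rcases hs j with h | h | h | h <;> omega
  have hval : ∀ y : ZMod (Lam K), (y + (n : ZMod (Lam K))).val = (y.val + n) % Lam K := by
    intro y
    rw [ZMod.val_add, ZMod.val_natCast, Nat.add_mod_mod]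
  have hdig : ∀ y : ZMod (Lam K), GoodAll K y.val → ∀ i ∈ range K,
      dig i (y + (n : ZMod (Lam K))).val = dig i y.val + (s i : ZMod 9) := by
    intro y hy i hi
    rw [Finset.mem_range] at hi
    rw [hval, dig_mod i K _ hi, hsum]
    exact dig_add K i y.val s hs4 hi (hy i hi)
  simp only at hg' hh'
  have e1 : Gt K (x.1 + (n : ZMod (Lam K))).val - Gt K x.1.val
      + (Ht K x.1.val (x.2 + (n : ZMod (Lam K))).val - Ht K x.1.val x.2.val) = 0 := by
    rw [hg', hg, hh', hh]; ring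
  unfold Gt Ht at e1
  rw [← Finset.sum_sub_distrib, ← Finset.sum_sub_distrib, ← Finset.sum_add_distrib] at e1
  have e2 : ∀ i ∈ range K, g1 (dig i (x.1 + (n : ZMod (Lam K))).val) - g1 (dig i x.1.val)
      + (h1 (dig i x.1.val) (dig i (x.2 + (n : ZMod (Lam K))).val)
        - h1 (dig i x.1.val) (dig i x.2.val)) = if s i = 4 then 3 else 0 := by
    intro i hi
    rw [hdig x.1 ha i hi, hdig x.2 hb i hi]
    have hsz : ((s i : ZMod 9) = 0 ∨ (s i : ZMod 9) = 1 ∨ (s i : ZMod 9) = 3 ∨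
        (s i : ZMod 9) = 4) := by
      rcases hs i with h | h | h | h <;> simp [h]
    rw [digit_identity _ _ _ hsz]
    have : ((s i : ZMod 9) = 4) ↔ s i = 4 := by
      rcases hs i with h | h | h | h <;> simp [h] <;> decide
    simp only [this]
  rw [Finset.sum_congr rfl e2, ← Finset.sum_filter, Finset.sum_const] at e1
  have e3 : ((((range K).filter (fun i => s i = 4)).card * 3 : ℕ) : ZMod 9) = 0 := by
    rw [nsmul_eq_mul] at e1
    push_cast
    exact e1
  rw [ZMod.natCast_eq_zero_iff] at e3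
  apply h3
  omega

end Pool.Agent.Helper406.Rec
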