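import Mathlib

/-!
Tensor powers of a small form, and the exponential decay estimate for the
three-term pattern with digits in {0,1,3,4}.
-/

namespace Pool.Agent.Helper406.Rec

open Finset

section tensor
variable {P : Type} [Fintype P] [DecidableEq P]

theorem tensor_bound (M : P → P → ℂ) (d : P → ℝ) (hd : ∀ p, 0 < d p)
    (h1 : ∀ v : P → ℂ, ∑ p, (d p)⁻¹ * ‖∑ q, M p q * v q‖ ^ 2 ≤ ∑ q, d q * ‖v q‖ ^ 2) :
    ∀ (n : ℕ) (v : (Fin n → P) → ℂ),
      ∑ p : Fin n → P, (∏ i, (d (p i))⁻¹) * ‖∑ q : Fin n → P, (∏ i, M (p i) (q i)) * v q‖ ^ 2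
        ≤ ∑ q : Fin n → P, (∏ i, d (q i)) * ‖v q‖ ^ 2 := by
  intro n
  induction n with
  | zero =>
    intro v
    simp
  | succ n ih =>
    intro v
    have e := Fin.consEquiv (fun _ : Fin (n + 1) => P)
    have hsum : ∀ f : (Fin (n + 1) → P) → ℝ,
        ∑ q, f q = ∑ q0 : P, ∑ q' : Fin n → P, f (Fin.cons q0 q') := by
      intro f
      rw [← Fintype.sum_prod_type (f := fun x : P × (Fin n → P) => f (Fin.cons x.1 x.2))]
      exact (Equiv.sum_comp (Fin.consEquiv (fun _ : Fin (n + 1) => P)) f).symm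
    have hsumC : ∀ f : (Fin (n + 1) → P) → ℂ,
        ∑ q, f q = ∑ q0 : P, ∑ q' : Fin n → P, f (Fin.cons q0 q') := by
      intro f
      rw [← Fintype.sum_prod_type (f := fun x : P × (Fin n → P) => f (Fin.cons x.1 x.2))]
      exact (Equiv.sum_comp (Fin.consEquiv (fun _ : Fin (n + 1) => P)) f).symm
    rw [hsum, hsum]
    -- inner vectors
    set Ξ : P → (Fin n → P) → ℂ := fun q0 p' => ∑ q' : Fin n → P, (∏ i, M (p' i) (q' i)) *
      v (Fin.cons q0 q') with hΞ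
    have h2 : ∀ p0 : P, ∀ p' : Fin n → P,
        ∑ q : Fin (n + 1) → P, (∏ i, M ((Fin.cons p0 p' : Fin (n + 1) → P) i) (q i)) * v q
          = ∑ q0, M p0 q0 * Ξ q0 p' := by
      intro p0 p'
      rw [hsumC]
      apply Finset.sum_congr rfl
      intro q0 _
      rw [hΞ]
      simp only
      rw [Finset.mul_sum]
      apply Finset.sum_congr rfl
      intro q' _
      rw [Fin.prod_univ_succ]
      simp only [Fin.cons_zero, Fin.cons_succ]
      ring
    have h3 : ∀ p0 : P, ∀ p' : Fin n → P,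
        (∏ i, (d ((Fin.cons p0 p' : Fin (n + 1) → P) i))⁻¹) = (d p0)⁻¹ * ∏ i, (d (p' i))⁻¹ := by
      intro p0 p'
      rw [Fin.prod_univ_succ]
      simp only [Fin.cons_zero, Fin.cons_succ]
    have h4 : ∀ p0 : P, ∀ p' : Fin n → P,
        (∏ i, (d ((Fin.cons p0 p' : Fin (n + 1) → P) i))) = (d p0) * ∏ i, (d (p' i)) := by
      intro p0 p'
      rw [Fin.prod_univ_succ]
      simp only [Fin.cons_zero, Fin.cons_succ]
    simp only [h2, h3, h4]
    calc ∑ p0, ∑ p' : Fin n → P, (d p0)⁻¹ * (∏ i, (d (p' i))⁻¹) * ‖∑ q0, M p0 q0 * Ξ q0 p'‖ ^ 2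
        = ∑ p' : Fin n → P, (∏ i, (d (p' i))⁻¹) *
            ∑ p0, (d p0)⁻¹ * ‖∑ q0, M p0 q0 * Ξ q0 p'‖ ^ 2 := by
          rw [Finset.sum_comm]
          apply Finset.sum_congr rfl; intro p' _
          rw [Finset.mul_sum]
          apply Finset.sum_congr rfl; intro p0 _
          ring
      _ ≤ ∑ p' : Fin n → P, (∏ i, (d (p' i))⁻¹) * ∑ q0, d q0 * ‖Ξ q0 p'‖ ^ 2 := by
          apply Finset.sum_le_sum; intro p' _
          apply mul_le_mul_of_nonneg_left (h1 (fun q0 => Ξ q0 p'))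
          exact Finset.prod_nonneg fun i _ => (inv_pos.2 (hd _)).le
      _ = ∑ q0, d q0 * ∑ p' : Fin n → P, (∏ i, (d (p' i))⁻¹) * ‖Ξ q0 p'‖ ^ 2 := by
          simp only [Finset.mul_sum]
          rw [Finset.sum_comm]
          apply Finset.sum_congr rfl; intro q0 _
          apply Finset.sum_congr rfl; intro p' _
          ring
      _ ≤ ∑ q0, d q0 * ∑ q' : Fin n → P, (∏ i, d (q' i)) * ‖v (Fin.cons q0 q')‖ ^ 2 := by
          apply Finset.sum_le_sum; intro q0 _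
          exact mul_le_mul_of_nonneg_left (ih (fun q' => v (Fin.cons q0 q'))) (hd q0).le
      _ = _ := by
          apply Finset.sum_congr rfl; intro q0 _
          rw [Finset.mul_sum]
          apply Finset.sum_congr rfl; intro q' _
          ring

/-- expansion of a product form -/
theorem tensor_form {E : Type} [Fintype E] [DecidableEq E] (p q : E → P) (c : E → ℂ) (n : ℕ)
    (Φ v : (Fin n → P) → ℂ) :
    ∑ e : Fin n → E, (∏ i, c (e i)) * (Φ (fun i => p (e i)) * v (fun i => q (e i)))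
      = ∑ x : Fin n → P, Φ x * ∑ y : Fin n → P,
          (∏ i, ∑ e : E, if p e = x i ∧ q e = y i then c e else 0) * v y := by
  have h1 : ∀ x y : Fin n → P, (∏ i, ∑ e : E, if p e = x i ∧ q e = y i then c e else 0)
      = ∑ e : Fin n → E, if (fun i => p (e i)) = x ∧ (fun i => q (e i)) = y
          then ∏ i, c (e i) else 0 := by
    intro x y
    rw [Finset.prod_univ_sum, Fintype.piFinset_univ]
    apply Finset.sum_congr rfl
    intro e _
    by_cases h : (fun i => p (e i)) = x ∧ (fun i => q (e i)) = y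
    · rw [if_pos h]
      apply Finset.prod_congr rfl
      intro i _
      rw [if_pos ⟨congrFun h.1 i, congrFun h.2 i⟩]
    · rw [if_neg h]
      have : ∃ i, ¬ (p (e i) = x i ∧ q (e i) = y i) := by
        by_contra hcon
        push Not at hcon
        exact h ⟨funext fun i => (hcon i).1, funext fun i => (hcon i).2⟩
      obtain ⟨i, hi⟩ := this
      exact Finset.prod_eq_zero (Finset.mem_univ i) (if_neg hi)
  simp only [h1]
  symm
  calc ∑ x : Fin n → P, Φ x * ∑ y : Fin n → P,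
        (∑ e : Fin n → E, if (fun i => p (e i)) = x ∧ (fun i => q (e i)) = y
          then ∏ i, c (e i) else 0) * v y
      = ∑ x : Fin n → P, ∑ y : Fin n → P, ∑ e : Fin n → E,
          if (fun i => p (e i)) = x ∧ (fun i => q (e i)) = y
            then (∏ i, c (e i)) * (Φ x * v y) else 0 := by
        apply Finset.sum_congr rfl; intro x _
        rw [Finset.mul_sum]
        apply Finset.sum_congr rfl; intro y _
        rw [Finset.sum_mul, Finset.mul_sum]
        apply Finset.sum_congr rfl; intro e _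
        split_ifs
        · ring
        · ring
    _ = ∑ e : Fin n → E, ∑ x : Fin n → P, ∑ y : Fin n → P,
          if (fun i => p (e i)) = x ∧ (fun i => q (e i)) = y
            then (∏ i, c (e i)) * (Φ x * v y) else 0 := by
        rw [Finset.sum_congr rfl (fun x _ => Finset.sum_comm)]
        exact Finset.sum_comm
    _ = _ := by
        apply Finset.sum_congr rfl; intro e _
        rw [Finset.sum_eq_single (fun i => p (e i))]
        · rw [Finset.sum_eq_single (fun i => q (e i))]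
          · simp
          · intro y _ hy
            rw [if_neg]
            rintro ⟨_, h⟩
            exact hy h.symm
          · intro h; exact absurd (Finset.mem_univ _) h
        · intro x _ hx
          apply Finset.sum_eq_zero
          intro y _
          rw [if_neg]
          rintro ⟨h, _⟩
          exact hx h.symm
        · intro h; exact absurd (Finset.mem_univ _) h

end tensor

/-! ### the game -/

/-- digit of a node -/
def sd : Fin 3 → Fin 2 → ℕ := ![![1, 0], ![1, 3], ![4, 3]]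
/-- the three vertices -/
def Xv : Fin 3 → ℕ := ![4, 2, 0]
def Yv : Fin 3 → ℕ := ![3, 4, 5]
def Zv : Fin 3 → ℕ := ![4, 6, 8]
def yi : Fin 3 → Fin 2 → Fin 3 := ![![2, 1], ![0, 2], ![1, 0]]
def zi : Fin 3 → Fin 2 → Fin 3 := ![![1, 0], ![0, 2], ![2, 1]]
/-- weight of a node -/
def wt (ζ : ℂ) : Fin 3 → Fin 2 → ℂ := ![![1, 1], ![1, 1], ![ζ, 1]]

lemma Xv_sd (a : Fin 3) (b : Fin 2) : Xv a + sd a b = Yv (yi a b) := by
  revert a b; decide

lemma Xv_sd2 (a : Fin 3) (b : Fin 2) : Xv a + 2 * sd a b = Zv (zi a b) := by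
  revert a b; decide

/-- weights of the pairs -/
noncomputable def dd (p : Fin 3 × Fin 3) : ℝ :=
  if p = (2, 0) ∨ p = (1, 1) ∨ p = (0, 2) then 23 / 12 else 1

lemma dd_pos (p : Fin 3 × Fin 3) : 0 < dd p := by
  unfold dd
  split_ifs <;> norm_num

lemma sum_dd : ∑ p, dd p = 47 / 4 := by
  rw [Fintype.sum_prod_type]
  simp only [Fin.sum_univ_three, dd]
  simp only [Prod.mk.injEq]
  norm_num [Fin.ext_iff]

/-- the three by three inequality -/
lemma three_form (ζ x y z : ℂ) (hζ : ζ ^ 2 + ζ + 1 = 0) (hn : ‖ζ‖ = 1) :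
    ‖y + z‖ ^ 2 + ‖x + ζ * z‖ ^ 2 + ‖x + (starRingEnd ℂ ζ) * y‖ ^ 2
      ≤ (11 / 3) * (‖x‖ ^ 2 + ‖y‖ ^ 2 + ‖z‖ ^ 2) := by
  have hc : ζ * (starRingEnd ℂ ζ) = 1 := by
    rw [Complex.mul_conj, Complex.normSq_eq_norm_sq, hn]; norm_num
  have h3 : ζ ^ 3 = 1 := by linear_combination (ζ - 1) * hζ
  have hc2 : (starRingEnd ℂ ζ) = ζ ^ 2 := by
    linear_combination (-(starRingEnd ℂ ζ)) * h3 + ζ ^ 2 * hc
  set p := (starRingEnd ℂ ζ) * y with hp
  set q := ζ * z with hq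
  have hy : y = ζ * p := by rw [hp]; linear_combination (-y) * hc
  have hz : z = (starRingEnd ℂ ζ) * q := by rw [hq]; linear_combination (-z) * hc
  have e1 : ‖y + z‖ = ‖p + ζ * q‖ := by
    have : y + z = ζ * (p + ζ * q) := by
      rw [hy, hz, hc2]; ring
    rw [this, norm_mul, hn, one_mul]
  have e2 : ‖y‖ = ‖p‖ := by rw [hy, norm_mul, hn, one_mul]
  have e3 : ‖z‖ = ‖q‖ := by
    rw [hz, norm_mul, Complex.norm_conj, hn, one_mul]
  rw [e1, e2, e3]
  have hre : ζ.re = -1 / 2 ∧ ζ.im ^ 2 = 3 / 4 := by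
    have h1 := congrArg Complex.re hζ
    have h2 := congrArg Complex.im hζ
    simp [sq, Complex.mul_re, Complex.mul_im] at h1 h2
    have h4 : ζ.im * (2 * ζ.re + 1) = 0 := by linear_combination h2
    rcases mul_eq_zero.1 h4 with h5 | h5
    · rw [h5] at h1
      nlinarith [sq_nonneg (2 * ζ.re + 1)]
    · have h6 : ζ.re = -1 / 2 := by linarith
      refine ⟨h6, ?_⟩
      rw [h6] at h1
      nlinarith
  obtain ⟨hr, hb⟩ := hre
  simp only [← Complex.normSq_eq_norm_sq, Complex.normSq_apply, Complex.add_re, Complex.add_im,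
    Complex.mul_re, Complex.mul_im, hr]
  generalize ζ.im = b at hb
  generalize x.re = x1
  generalize x.im = x2
  generalize p.re = p1
  generalize p.im = p2
  generalize q.re = q1
  generalize q.im = q2
  have f1 : b ^ 2 * q1 ^ 2 = 3 / 4 * q1 ^ 2 := by rw [hb]
  have f2 : b ^ 2 * q2 ^ 2 = 3 / 4 * q2 ^ 2 := by rw [hb]
  nlinarith [sq_nonneg (x1 - 3 / 5 * (p1 + q1)), sq_nonneg (x2 - 3 / 5 * (p2 + q2)),
    sq_nonneg (p1 + b * q2 - q1 / 10), sq_nonneg (p2 - b * q1 - q2 / 10),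
    sq_nonneg p1, sq_nonneg p2, sq_nonneg q1, sq_nonneg q2]

def pe (e : Fin 3 × Fin 2 × Fin 2) : Fin 3 × Fin 3 := (yi e.1 e.2.1, zi e.1 e.2.2)
def qe (e : Fin 3 × Fin 2 × Fin 2) : Fin 3 × Fin 3 := (yi e.1 e.2.2, zi e.1 e.2.1)
noncomputable def ce (ζ : ℂ) (e : Fin 3 × Fin 2 × Fin 2) : ℂ :=
  wt ζ e.1 e.2.1 * (starRingEnd ℂ) (wt ζ e.1 e.2.2)

lemma one_coord (ζ : ℂ) (hζ : ζ ^ 2 + ζ + 1 = 0) (hn : ‖ζ‖ = 1) (v : Fin 3 × Fin 3 → ℂ) :
    ∑ x, (dd x)⁻¹ * ‖∑ y, (∑ e, if pe e = x ∧ qe e = y then ce ζ e else 0) * v y‖ ^ 2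
      ≤ ∑ y, dd y * ‖v y‖ ^ 2 := by
  have h1 : ∀ x, ∑ y, (∑ e, if pe e = x ∧ qe e = y then ce ζ e else 0) * v y
      = ∑ e, if pe e = x then ce ζ e * v (qe e) else 0 := by
    intro x
    simp only [Finset.sum_mul]
    rw [Finset.sum_comm]
    apply Finset.sum_congr rfl
    intro e _
    rw [Finset.sum_eq_single (qe e)]
    · by_cases h : pe e = x
      · simp [h]
      · simp [h]
    · intro y _ hy
      rw [if_neg, zero_mul]
      rintro ⟨_, h⟩
      exact hy h.symm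
    · intro h; exact absurd (Finset.mem_univ _) h
  simp only [h1]
  have key := three_form ζ (v (2, 0)) (v (1, 1)) (v (0, 2)) hζ hn
  simp only [Fintype.sum_prod_type, Fin.sum_univ_three, Fin.sum_univ_two, pe, qe, ce, yi, zi, wt,
    dd]
  simp
  rw [hn]
  simp only [one_mul]
  have g1 := sq_nonneg ‖v (2, 0)‖
  have g2 := sq_nonneg ‖v (1, 1)‖
  have g3 := sq_nonneg ‖v (0, 2)‖
  linarith

lemma sum_triple (n : ℕ) (f : (Fin n → Fin 3) → (Fin n → Fin 2) → (Fin n → Fin 2) → ℂ) :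
    ∑ a, ∑ b, ∑ b', f a b b'
      = ∑ e : Fin n → Fin 3 × Fin 2 × Fin 2,
          f (fun i => (e i).1) (fun i => (e i).2.1) (fun i => (e i).2.2) := by
  have h1 : ∀ a : Fin n → Fin 3, ∑ b, ∑ b', f a b b'
      = ∑ c : Fin n → Fin 2 × Fin 2, f a (fun i => (c i).1) (fun i => (c i).2) := by
    intro a
    rw [← Fintype.sum_prod_type (f := fun x : (Fin n → Fin 2) × (Fin n → Fin 2) => f a x.1 x.2)]
    exact (Equiv.sum_comp (Equiv.arrowProdEquivProdArrow (Fin n) (fun _ => Fin 2) (fun _ => Fin 2))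
      (fun x : (Fin n → Fin 2) × (Fin n → Fin 2) => f a x.1 x.2)).symm
  simp only [h1]
  rw [← Fintype.sum_prod_type (f := fun x : (Fin n → Fin 3) × (Fin n → Fin 2 × Fin 2) =>
    f x.1 (fun i => (x.2 i).1) (fun i => (x.2 i).2))]
  exact (Equiv.sum_comp (Equiv.arrowProdEquivProdArrow (Fin n) (fun _ => Fin 3)
    (fun _ => Fin 2 × Fin 2))
      (fun x : (Fin n → Fin 3) × (Fin n → Fin 2 × Fin 2) =>
        f x.1 (fun i => (x.2 i).1) (fun i => (x.2 i).2))).symm

theorem game (ζ : ℂ) (hζ : ζ ^ 2 + ζ + 1 = 0) (hn : ‖ζ‖ = 1) (n : ℕ)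
    (F G H : (Fin n → Fin 3) → ℂ) (hF : ∀ a, ‖F a‖ ≤ 1) (hG : ∀ a, ‖G a‖ ≤ 1)
    (hH : ∀ a, ‖H a‖ ≤ 1) :
    ‖∑ a : Fin n → Fin 3, ∑ b : Fin n → Fin 2, (∏ i, wt ζ (a i) (b i)) *
      (F a * (G (fun i => yi (a i) (b i)) * H (fun i => zi (a i) (b i))))‖ ^ 2
      ≤ (141 / 4) ^ n := by
  set R : (Fin n → Fin 3) → ℂ := fun a => ∑ b : Fin n → Fin 2, (∏ i, wt ζ (a i) (b i)) *
      (G (fun i => yi (a i) (b i)) * H (fun i => zi (a i) (b i))) with hR
  have h1 : ∑ a : Fin n → Fin 3, ∑ b : Fin n → Fin 2, (∏ i, wt ζ (a i) (b i)) *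
      (F a * (G (fun i => yi (a i) (b i)) * H (fun i => zi (a i) (b i)))) = ∑ a, F a * R a := by
    apply Finset.sum_congr rfl; intro a _
    rw [hR]
    simp only
    rw [Finset.mul_sum]
    apply Finset.sum_congr rfl; intro b _
    ring
  rw [h1]
  have h2 : ‖∑ a, F a * R a‖ ≤ ∑ a, ‖R a‖ := by
    refine (norm_sum_le _ _).trans ?_
    apply Finset.sum_le_sum; intro a _
    rw [norm_mul]
    have := norm_nonneg (R a)
    nlinarith [hF a]
  have h3 : ‖∑ a, F a * R a‖ ^ 2 ≤ (3:ℝ) ^ n * ∑ a, ‖R a‖ ^ 2 := by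
    calc ‖∑ a, F a * R a‖ ^ 2 ≤ (∑ a, ‖R a‖) ^ 2 :=
          pow_le_pow_left₀ (norm_nonneg _) h2 2
      _ ≤ (Finset.univ : Finset (Fin n → Fin 3)).card * ∑ a, ‖R a‖ ^ 2 :=
          sq_sum_le_card_mul_sum_sq
      _ = (3:ℝ) ^ n * ∑ a, ‖R a‖ ^ 2 := by
          rw [Finset.card_univ, Fintype.card_fun, Fintype.card_fin, Fintype.card_fin]
          push_cast
          rfl
  -- K2
  set Φ : (Fin n → Fin 3 × Fin 3) → ℂ := fun P => G (fun i => (P i).1) *
    (starRingEnd ℂ) (H (fun i => (P i).2)) with hΦ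
  set v : (Fin n → Fin 3 × Fin 3) → ℂ := fun P => (starRingEnd ℂ) (G (fun i => (P i).1)) *
    (H (fun i => (P i).2)) with hv
  have hΦ1 : ∀ P, ‖Φ P‖ ≤ 1 := by
    intro P
    rw [hΦ]
    simp only
    rw [norm_mul, Complex.norm_conj]
    have a1 := hG (fun i => (P i).1)
    have a2 := hH (fun i => (P i).2)
    have a3 := norm_nonneg (G (fun i => (P i).1))
    have a4 := norm_nonneg (H (fun i => (P i).2))
    nlinarith
  have hv1 : ∀ P, ‖v P‖ ≤ 1 := by
    intro P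
    rw [hv]
    simp only
    rw [norm_mul, Complex.norm_conj]
    have a1 := hG (fun i => (P i).1)
    have a2 := hH (fun i => (P i).2)
    have a3 := norm_nonneg (G (fun i => (P i).1))
    have a4 := norm_nonneg (H (fun i => (P i).2))
    nlinarith
  have h4 : ((∑ a, ‖R a‖ ^ 2 : ℝ) : ℂ)
      = ∑ e : Fin n → Fin 3 × Fin 2 × Fin 2, (∏ i, ce ζ (e i)) *
          (Φ (fun i => pe (e i)) * v (fun i => qe (e i))) := by
    push_cast
    have h5 : ∀ a, ((‖R a‖ : ℂ)) ^ 2 = ∑ b : Fin n → Fin 2, ∑ b' : Fin n → Fin 2,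
        ((∏ i, wt ζ (a i) (b i)) * (G (fun i => yi (a i) (b i)) * H (fun i => zi (a i) (b i)))) *
        (starRingEnd ℂ) ((∏ i, wt ζ (a i) (b' i)) *
          (G (fun i => yi (a i) (b' i)) * H (fun i => zi (a i) (b' i)))) := by
      intro a
      rw [← Complex.mul_conj', hR]
      simp only
      rw [map_sum, Finset.sum_mul_sum]
    rw [Finset.sum_congr rfl fun a _ => h5 a, sum_triple]
    apply Finset.sum_congr rfl; intro e _
    rw [hΦ, hv]
    simp only [pe, qe, ce, map_mul, map_prod, Complex.conj_conj]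
    rw [Finset.prod_mul_distrib]
    ring
  have h6 := tensor_form pe qe (ce ζ) n Φ v
  rw [← h4] at h6
  set Mk : Fin 3 × Fin 3 → Fin 3 × Fin 3 → ℂ := fun x y =>
    ∑ e, if pe e = x ∧ qe e = y then ce ζ e else 0 with hMk
  have h7 := tensor_bound Mk dd dd_pos (one_coord ζ hζ hn) n v
  set T : (Fin n → Fin 3 × Fin 3) → ℂ := fun x => ∑ y : Fin n → Fin 3 × Fin 3,
    (∏ i, Mk (x i) (y i)) * v y with hT
  have h8 : ((∑ a, ‖R a‖ ^ 2 : ℝ) : ℂ) = ∑ x, Φ x * T x := h6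
  have hprod : ∑ x : Fin n → Fin 3 × Fin 3, ∏ i, dd (x i) = (47 / 4) ^ n := by
    have := (Finset.prod_univ_sum (t := fun _ : Fin n => (Finset.univ : Finset (Fin 3 × Fin 3)))
      (f := fun _ p => dd p))
    rw [Fintype.piFinset_univ] at this
    rw [← this, Finset.prod_const, sum_dd]
    simp
  have h9 : ∑ a, ‖R a‖ ^ 2 ≤ (47 / 4) ^ n := by
    have g1 : (∑ a, ‖R a‖ ^ 2 : ℝ) = ‖((∑ a, ‖R a‖ ^ 2 : ℝ) : ℂ)‖ := by
      rw [Complex.norm_real, Real.norm_of_nonneg]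
      exact Finset.sum_nonneg fun a _ => sq_nonneg _
    rw [g1, h8]
    refine (norm_sum_le _ _).trans ?_
    have g2 : ∀ x : Fin n → Fin 3 × Fin 3, ‖Φ x * T x‖ ≤
        (1 / 2) * (∏ i, dd (x i)) + (1 / 2) * ((∏ i, (dd (x i))⁻¹) * ‖T x‖ ^ 2) := by
      intro x
      rw [norm_mul]
      have k1 : 0 < ∏ i, dd (x i) := Finset.prod_pos fun i _ => dd_pos _
      have k2 : (∏ i, (dd (x i))⁻¹) = (∏ i, dd (x i))⁻¹ := Finset.prod_inv_distrib _
      rw [k2]
      generalize (∏ i, dd (x i)) = D at k1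
      have k3 : ‖Φ x‖ * ‖T x‖ ≤ ‖T x‖ := by
        have := norm_nonneg (T x)
        nlinarith [hΦ1 x]
      refine k3.trans ?_
      generalize ‖T x‖ = t
      have k4 : D * D⁻¹ = 1 := mul_inv_cancel₀ k1.ne'
      have k5 : 0 < D⁻¹ := inv_pos.2 k1
      have k6 : 0 ≤ D⁻¹ * (D - t) ^ 2 := by positivity
      have k7 : D⁻¹ * (D - t) ^ 2 = D - 2 * t + D⁻¹ * t ^ 2 := by
        have : D⁻¹ * (D - t) ^ 2 = (D * D⁻¹) * D - 2 * (D * D⁻¹) * t + D⁻¹ * t ^ 2 := by ring
        rw [this, k4]; ring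
      rw [k7] at k6
      linarith
    refine (Finset.sum_le_sum fun x _ => g2 x).trans ?_
    rw [Finset.sum_add_distrib, ← Finset.mul_sum, ← Finset.mul_sum, hprod]
    have g3 : ∑ q : Fin n → Fin 3 × Fin 3, (∏ i, dd (q i)) * ‖v q‖ ^ 2 ≤ (47 / 4) ^ n := by
      rw [← hprod]
      apply Finset.sum_le_sum; intro q _
      have k1 : 0 < ∏ i, dd (q i) := Finset.prod_pos fun i _ => dd_pos _
      have k2 := hv1 q
      have k3 := norm_nonneg (v q)
      have k4 : ‖v q‖ ^ 2 ≤ 1 := by nlinarith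
      nlinarith
    linarith
  calc ‖∑ a, F a * R a‖ ^ 2 ≤ (3:ℝ) ^ n * ∑ a, ‖R a‖ ^ 2 := h3
    _ ≤ (3:ℝ) ^ n * (47 / 4) ^ n := mul_le_mul_of_nonneg_left h9 (by positivity)
    _ = (141 / 4) ^ n := by rw [← mul_pow]; norm_num

end Pool.Agent.Helper406.Rec
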