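import Pool.Agent.Helper406.Rec.Dhj
import Pool.Agent.Helper406.Rec.Tensor

/-!
Positivity: the digit set is a set of 2-recurrence.
-/

namespace Pool.Agent.Helper406.Rec

open Finset MeasureTheory

section dyn
variable {X : Type*} [MeasurableSpace X] (μ : Measure X) [IsProbabilityMeasure μ]
  (U : X → X) (A : Set X)

/-- the return function -/
noncomputable def nu (N : ℕ) : ℝ := μ.real (A ∩ U^[N] ⁻¹' A ∩ U^[2 * N] ⁻¹' A)

lemma nu_nonneg (N : ℕ) : 0 ≤ nu μ U A N := measureReal_nonneg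

lemma integral_ind {B : Set X} (hB : MeasurableSet B) : ∫ x, ind (x ∈ B) ∂μ = μ.real B := by
  have h : (fun x => ind (x ∈ B)) = B.indicator (fun _ => (1:ℝ)) := by
    funext x
    by_cases hx : x ∈ B
    · rw [ind_true hx, Set.indicator_of_mem hx]
    · rw [ind_false hx, Set.indicator_of_notMem hx]
  rw [h, integral_indicator hB]
  simp

lemma integrable_ind {B : Set X} (hB : MeasurableSet B) : Integrable (fun x => ind (x ∈ B)) μ := by
  have h : (fun x => ind (x ∈ B)) = B.indicator (fun _ => (1:ℝ)) := by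
    funext x
    by_cases hx : x ∈ B
    · rw [ind_true hx, Set.indicator_of_mem hx]
    · rw [ind_false hx, Set.indicator_of_notMem hx]
  rw [h]
  exact (integrable_const 1).indicator hB

variable {U A}

lemma shifted (hU : MeasurePreserving U μ μ) (hA : MeasurableSet A) (N k : ℕ) :
    μ.real {x | U^[k] x ∈ A ∧ U^[N + k] x ∈ A ∧ U^[2 * N + k] x ∈ A} = nu μ U A N := by
  have h1 : {x | U^[k] x ∈ A ∧ U^[N + k] x ∈ A ∧ U^[2 * N + k] x ∈ A}
      = U^[k] ⁻¹' (A ∩ U^[N] ⁻¹' A ∩ U^[2 * N] ⁻¹' A) := by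
    ext x
    simp only [Set.mem_ofPred_eq, Set.mem_preimage, Set.mem_inter_iff,
      Function.iterate_add_apply]
    tauto
  rw [h1, nu]
  have h2 := (hU.iterate k).measure_preimage (s := A ∩ U^[N] ⁻¹' A ∩ U^[2 * N] ⁻¹' A) ?_
  · unfold Measure.real
    rw [h2]
  · apply MeasurableSet.nullMeasurableSet
    exact (hA.inter ((hU.iterate N).measurable hA)).inter ((hU.iterate (2 * N)).measurable hA)

lemma meas_pre (hU : MeasurePreserving U μ μ) (hA : MeasurableSet A) (k : ℕ) :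
    MeasurableSet {x | U^[k] x ∈ A} := (hU.iterate k).measurable hA

theorem decay_fin (ζ : ℂ) (hζ : ζ ^ 2 + ζ + 1 = 0) (hn : ‖ζ‖ = 1)
    (hU : MeasurePreserving U μ μ) (hA : MeasurableSet A) (n : ℕ) (lam : Fin n → ℕ)
    (h : ∀ (a : Fin n → Fin 3) (b : Fin n → Fin 2), (∏ i, wt ζ (a i) (b i)) ≠ 1 →
      nu μ U A (∑ i, sd (a i) (b i) * lam i) = 0) :
    (∑ a : Fin n → Fin 3, ∑ b : Fin n → Fin 2, nu μ U A (∑ i, sd (a i) (b i) * lam i)) ^ 2
      ≤ (141 / 4) ^ n := by
  set F : X → (Fin n → Fin 3) → ℂ := fun x a => ((ind (U^[∑ i, Xv (a i) * lam i] x ∈ A) : ℝ) : ℂ)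
    with hF
  set G : X → (Fin n → Fin 3) → ℂ := fun x a => ((ind (U^[∑ i, Yv (a i) * lam i] x ∈ A) : ℝ) : ℂ)
    with hG
  set H : X → (Fin n → Fin 3) → ℂ := fun x a => ((ind (U^[∑ i, Zv (a i) * lam i] x ∈ A) : ℝ) : ℂ)
    with hH
  have hbound : ∀ (k : ℕ) (x : X), ‖((ind (U^[k] x ∈ A) : ℝ) : ℂ)‖ ≤ 1 := by
    intro k x
    rw [Complex.norm_real, Real.norm_of_nonneg (ind_nonneg _)]
    exact ind_le_one _
  have hsums1 : ∀ (a : Fin n → Fin 3) (b : Fin n → Fin 2),
      ∑ i, sd (a i) (b i) * lam i + ∑ i, Xv (a i) * lam i = ∑ i, Yv (yi (a i) (b i)) * lam i := by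
    intro a b
    rw [← Finset.sum_add_distrib]
    apply Finset.sum_congr rfl; intro i _
    rw [← Xv_sd]; ring
  have hsums2 : ∀ (a : Fin n → Fin 3) (b : Fin n → Fin 2),
      2 * ∑ i, sd (a i) (b i) * lam i + ∑ i, Xv (a i) * lam i
        = ∑ i, Zv (zi (a i) (b i)) * lam i := by
    intro a b
    rw [Finset.mul_sum, ← Finset.sum_add_distrib]
    apply Finset.sum_congr rfl; intro i _
    rw [← Xv_sd2]; ring
  -- each return as an integral
  have hprodind : ∀ (a : Fin n → Fin 3) (b : Fin n → Fin 2) (x : X),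
      F x a * (G x (fun i => yi (a i) (b i)) * H x (fun i => zi (a i) (b i)))
      = ((ind (x ∈ {x | U^[∑ i, Xv (a i) * lam i] x ∈ A ∧
          U^[∑ i, sd (a i) (b i) * lam i + ∑ i, Xv (a i) * lam i] x ∈ A ∧
          U^[2 * ∑ i, sd (a i) (b i) * lam i + ∑ i, Xv (a i) * lam i] x ∈ A}) : ℝ) : ℂ) := by
    intro a b x
    rw [hsums1, hsums2, hF, hG, hH]
    simp only [Set.mem_ofPred_eq]
    rw [ind_and, ind_and]
    push_cast
    rfl
  have hmeas : ∀ (a : Fin n → Fin 3) (b : Fin n → Fin 2),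
      MeasurableSet {x | U^[∑ i, Xv (a i) * lam i] x ∈ A ∧
          U^[∑ i, sd (a i) (b i) * lam i + ∑ i, Xv (a i) * lam i] x ∈ A ∧
          U^[2 * ∑ i, sd (a i) (b i) * lam i + ∑ i, Xv (a i) * lam i] x ∈ A} := by
    intro a b
    exact (meas_pre μ hU hA _).inter ((meas_pre μ hU hA _).inter (meas_pre μ hU hA _))
  have hint : ∀ (a : Fin n → Fin 3) (b : Fin n → Fin 2),
      ∫ x, F x a * (G x (fun i => yi (a i) (b i)) * H x (fun i => zi (a i) (b i))) ∂μ
        = ((nu μ U A (∑ i, sd (a i) (b i) * lam i) : ℝ) : ℂ) := by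
    intro a b
    simp only [hprodind]
    rw [integral_complex_ofReal, integral_ind μ (hmeas a b), shifted μ hU hA]
  have hintg : ∀ (a : Fin n → Fin 3) (b : Fin n → Fin 2),
      Integrable (fun x => F x a * (G x (fun i => yi (a i) (b i)) * H x (fun i => zi (a i) (b i))))
        μ := by
    intro a b
    simp only [hprodind]
    exact (integrable_ind μ (hmeas a b)).ofReal
  have hS : ((∑ a : Fin n → Fin 3, ∑ b : Fin n → Fin 2,
      nu μ U A (∑ i, sd (a i) (b i) * lam i) : ℝ) : ℂ)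
      = ∫ x, ∑ a : Fin n → Fin 3, ∑ b : Fin n → Fin 2, (∏ i, wt ζ (a i) (b i)) *
        (F x a * (G x (fun i => yi (a i) (b i)) * H x (fun i => zi (a i) (b i)))) ∂μ := by
    rw [integral_finsetSum]
    · push_cast
      apply Finset.sum_congr rfl; intro a _
      rw [integral_finsetSum]
      · apply Finset.sum_congr rfl; intro b _
        rw [integral_const_mul, hint]
        by_cases hw : (∏ i, wt ζ (a i) (b i)) = 1
        · rw [hw, one_mul]
        · rw [h a b hw]; simp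
      · intro b _
        exact (hintg a b).const_mul _
    · intro a _
      apply integrable_finsetSum
      intro b _
      exact (hintg a b).const_mul _
  have hC : ∀ x, ‖∑ a : Fin n → Fin 3, ∑ b : Fin n → Fin 2, (∏ i, wt ζ (a i) (b i)) *
        (F x a * (G x (fun i => yi (a i) (b i)) * H x (fun i => zi (a i) (b i))))‖
        ≤ Real.sqrt ((141 / 4) ^ n) := by
    intro x
    apply Real.le_sqrt_of_sq_le
    exact game ζ hζ hn n (F x) (G x) (H x) (fun a => hbound _ _) (fun a => hbound _ _)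
      (fun a => hbound _ _)
  have h5 : ‖((∑ a : Fin n → Fin 3, ∑ b : Fin n → Fin 2,
      nu μ U A (∑ i, sd (a i) (b i) * lam i) : ℝ) : ℂ)‖ ≤ Real.sqrt ((141 / 4) ^ n) := by
    rw [hS]
    have := norm_integral_le_of_norm_le_const (μ := μ) (Filter.Eventually.of_forall hC)
    simpa using this
  rw [Complex.norm_real] at h5
  have h6 : (∑ a : Fin n → Fin 3, ∑ b : Fin n → Fin 2,
      nu μ U A (∑ i, sd (a i) (b i) * lam i)) ^ 2
      = ‖(∑ a : Fin n → Fin 3, ∑ b : Fin n → Fin 2,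
      nu μ U A (∑ i, sd (a i) (b i) * lam i))‖ ^ 2 := by
    rw [Real.norm_eq_abs, sq_abs]
  rw [h6]
  calc _ ≤ (Real.sqrt ((141 / 4) ^ n)) ^ 2 := pow_le_pow_left₀ (norm_nonneg _) h5 2
    _ = (141 / 4) ^ n := Real.sq_sqrt (by positivity)

theorem decay (ζ : ℂ) (hζ : ζ ^ 2 + ζ + 1 = 0) (hn : ‖ζ‖ = 1)
    (hU : MeasurePreserving U μ μ) (hA : MeasurableSet A) (ι : Type) [Fintype ι] [DecidableEq ι]
    (lam : ι → ℕ)
    (h : ∀ t : ι → Fin 3 × Fin 2, (∏ i, wt ζ (t i).1 (t i).2) ≠ 1 →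
      nu μ U A (∑ i, sd (t i).1 (t i).2 * lam i) = 0) :
    (avg (fun t : ι → Fin 3 × Fin 2 => nu μ U A (∑ i, sd (t i).1 (t i).2 * lam i))) ^ 2
      ≤ (141 / 144) ^ (Fintype.card ι) := by
  set n := Fintype.card ι with hnn
  have e : ι ≃ Fin n := Fintype.equivFin ι
  have key := decay_fin μ ζ hζ hn hU hA n (fun i => lam (e.symm i)) ?_
  · -- transport of the sum
    have h1 : ∑ t : ι → Fin 3 × Fin 2, nu μ U A (∑ i, sd (t i).1 (t i).2 * lam i)
        = ∑ a : Fin n → Fin 3, ∑ b : Fin n → Fin 2,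
          nu μ U A (∑ i, sd (a i) (b i) * lam (e.symm i)) := by
      rw [← Fintype.sum_prod_type (f := fun x : (Fin n → Fin 3) × (Fin n → Fin 2) =>
        nu μ U A (∑ i, sd (x.1 i) (x.2 i) * lam (e.symm i)))]
      rw [← Equiv.sum_comp (Equiv.arrowProdEquivProdArrow (Fin n) (fun _ => Fin 3)
        (fun _ => Fin 2)) (fun x : (Fin n → Fin 3) × (Fin n → Fin 2) =>
        nu μ U A (∑ i, sd (x.1 i) (x.2 i) * lam (e.symm i)))]
      rw [← Equiv.sum_comp (Equiv.arrowCongr e.symm (Equiv.refl (Fin 3 × Fin 2)))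
        (fun t : ι → Fin 3 × Fin 2 => nu μ U A (∑ i, sd (t i).1 (t i).2 * lam i))]
      apply Finset.sum_congr rfl
      intro t _
      congr 1
      rw [← Equiv.sum_comp e (fun i => sd (((Equiv.arrowProdEquivProdArrow (Fin n)
        (fun _ => Fin 3) (fun _ => Fin 2)) t).1 i) (((Equiv.arrowProdEquivProdArrow (Fin n)
        (fun _ => Fin 3) (fun _ => Fin 2)) t).2 i) * lam (e.symm i))]
      apply Finset.sum_congr rfl
      intro i _
      simp [Equiv.arrowCongr, Equiv.arrowProdEquivProdArrow]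
    unfold avg
    rw [h1, div_pow]
    have h2 : (Fintype.card (ι → Fin 3 × Fin 2) : ℝ) = 6 ^ n := by
      rw [Fintype.card_fun, Fintype.card_prod, Fintype.card_fin, Fintype.card_fin]
      push_cast
      norm_num
      rfl
    rw [h2, div_le_iff₀ (by positivity)]
    refine key.trans (le_of_eq ?_)
    rw [← pow_mul, mul_comm n 2, pow_mul, ← mul_pow]
    norm_num
  · intro a b hab
    have h3 := h (fun i => (a (e i), b (e i))) ?_
    · rw [← Equiv.sum_comp e (fun i => sd (a i) (b i) * lam (e.symm i))]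
      simpa using h3
    · intro hcon
      apply hab
      rw [← Equiv.prod_comp e (fun i => wt ζ (a i) (b i))]
      exact hcon

/-- base point of a line -/
def bs {d : ℕ} (φ : Fin d → Fin 3 ⊕ Unit) (e : Fin d → ℕ) : ℕ :=
  ∑ j, Sum.elim (fun c : Fin 3 => (c : ℕ) * e j) (fun _ => 0) (φ j)

/-- step of a line -/
def st {d : ℕ} (φ : Fin d → Fin 3 ⊕ Unit) (e : Fin d → ℕ) : ℕ :=
  ∑ j, Sum.elim (fun _ : Fin 3 => 0) (fun _ => e j) (φ j)

lemma line_sum {d : ℕ} (L : Sub Unit (Fin d)) (e : Fin d → ℕ) (a : Fin 3) :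
    ∑ j, ((L.app (fun _ => a) j : Fin 3) : ℕ) * e j = (a : ℕ) * st L.φ e + bs L.φ e := by
  unfold st bs Sub.app
  rw [Finset.mul_sum, ← Finset.sum_add_distrib]
  apply Finset.sum_congr rfl
  intro j _
  cases h : L.φ j with
  | inl c => simp
  | inr k => simp

theorem ip_roth (hU : MeasurePreserving U μ μ) (hA : MeasurableSet A) (δ : ℝ) (hδ : 0 < δ)
    (hμ : δ ≤ μ.real A) (d : ℕ)
    (hd : ∀ D : Pt (Fin d) → Prop, δ / 2 ≤ avg (fun x => ind (D x)) →
      ∃ L : Sub Unit (Fin d), ∀ a : Fin 3, D (L.app (fun _ => a)))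
    (e : Fin d → ℕ) :
    δ / 2 ≤ ∑ φ : Fin d → Fin 3 ⊕ Unit, ind (∃ j, φ j = Sum.inr ()) * nu μ U A (st φ e) := by
  classical
  set B : Pt (Fin d) → Set X := fun z => {x | U^[∑ j, (z j : ℕ) * e j] x ∈ A} with hB
  set C : (Fin d → Fin 3 ⊕ Unit) → Set X := fun φ => {x | U^[bs φ e] x ∈ A ∧
    U^[st φ e + bs φ e] x ∈ A ∧ U^[2 * st φ e + bs φ e] x ∈ A} with hC
  have hBm : ∀ z, MeasurableSet (B z) := fun z => meas_pre μ hU hA _
  have hCm : ∀ φ, MeasurableSet (C φ) := fun φ =>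
    (meas_pre μ hU hA _).inter ((meas_pre μ hU hA _).inter (meas_pre μ hU hA _))
  have hBμ : ∀ z, μ.real (B z) = μ.real A := by
    intro z
    have h1 := (hU.iterate (∑ j, (z j : ℕ) * e j)).measure_preimage hA.nullMeasurableSet
    unfold Measure.real
    rw [← h1]
    rfl
  have hCμ : ∀ φ, μ.real (C φ) = nu μ U A (st φ e) := fun φ => shifted μ hU hA _ _
  have hpt : ∀ x, avg (fun z : Pt (Fin d) => ind (x ∈ B z)) ≤ δ / 2 +
      ∑ φ : Fin d → Fin 3 ⊕ Unit, ind (∃ j, φ j = Sum.inr ()) * ind (x ∈ C φ) := by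
    intro x
    have hnn : ∀ φ : Fin d → Fin 3 ⊕ Unit, 0 ≤ ind (∃ j, φ j = Sum.inr ()) * ind (x ∈ C φ) :=
      fun φ => mul_nonneg (ind_nonneg _) (ind_nonneg _)
    by_cases hx : δ / 2 ≤ avg (fun z : Pt (Fin d) => ind (x ∈ B z))
    · obtain ⟨L, hL⟩ := hd (fun z => x ∈ B z) hx
      have h1 : x ∈ C L.φ := by
        have g0 := hL 0
        have g1 := hL 1
        have g2 := hL 2
        simp only [hB, Set.mem_ofPred_eq, line_sum] at g0 g1 g2
        simp only [hC, Set.mem_ofPred_eq]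
        refine ⟨by simpa using g0, by simpa using g1, by simpa using g2⟩
      have h2 : ∃ j, L.φ j = Sum.inr () := L.surj ()
      have h3 : ind (∃ j, L.φ j = Sum.inr ()) * ind (x ∈ C L.φ) ≤
          ∑ φ : Fin d → Fin 3 ⊕ Unit, ind (∃ j, φ j = Sum.inr ()) * ind (x ∈ C φ) :=
        Finset.single_le_sum (f := fun φ : Fin d → Fin 3 ⊕ Unit =>
          ind (∃ j, φ j = Sum.inr ()) * ind (x ∈ C φ)) (fun φ _ => hnn φ) (Finset.mem_univ L.φ)
      rw [ind_true h1, ind_true h2] at h3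
      have h4 : avg (fun z : Pt (Fin d) => ind (x ∈ B z)) ≤ 1 := avg_le_one fun z => ind_le_one _
      linarith
    · push Not at hx
      have := Finset.sum_nonneg (s := Finset.univ) fun φ _ => hnn φ
      linarith
  have hi1 : Integrable (fun x => avg (fun z : Pt (Fin d) => ind (x ∈ B z))) μ := by
    unfold avg
    apply Integrable.div_const
    apply integrable_finsetSum
    intro z _
    exact integrable_ind μ (hBm z)
  have hi2 : Integrable (fun x => δ / 2 +
      ∑ φ : Fin d → Fin 3 ⊕ Unit, ind (∃ j, φ j = Sum.inr ()) * ind (x ∈ C φ)) μ := by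
    apply Integrable.add (integrable_const _)
    apply integrable_finsetSum
    intro φ _
    exact (integrable_ind μ (hCm φ)).const_mul _
  have h1 := integral_mono hi1 hi2 hpt
  have e1 : ∫ x, avg (fun z : Pt (Fin d) => ind (x ∈ B z)) ∂μ = μ.real A := by
    unfold avg
    rw [integral_div, integral_finsetSum]
    · have : ∀ z ∈ (Finset.univ : Finset (Pt (Fin d))), ∫ x, ind (x ∈ B z) ∂μ = μ.real A := by
        intro z _
        rw [integral_ind μ (hBm z), hBμ]
      rw [Finset.sum_congr rfl this]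
      exact avg_const (Ω := Pt (Fin d)) (μ.real A)
    · intro z _
      exact integrable_ind μ (hBm z)
  have e2 : ∫ x, (δ / 2 + ∑ φ : Fin d → Fin 3 ⊕ Unit,
      ind (∃ j, φ j = Sum.inr ()) * ind (x ∈ C φ)) ∂μ
      = δ / 2 + ∑ φ : Fin d → Fin 3 ⊕ Unit, ind (∃ j, φ j = Sum.inr ()) *
          nu μ U A (st φ e) := by
    rw [integral_add (integrable_const _), integral_finsetSum]
    · congr 1
      · simp
      · apply Finset.sum_congr rfl
        intro φ _
        rw [integral_const_mul, integral_ind μ (hCm φ), hCμ]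
    · intro φ _
      exact (integrable_ind μ (hCm φ)).const_mul _
    · apply integrable_finsetSum
      intro φ _
      exact (integrable_ind μ (hCm φ)).const_mul _
  rw [e1, e2] at h1
  linarith

end dyn

/-! ### the digit set -/

/-- the scales -/
def Lam (i : ℕ) : ℕ := 6561 ^ (i ^ 2)

/-- the return set -/
def InS (N : ℕ) : Prop :=
  ∃ (J : Finset ℕ) (s : ℕ → ℕ), (∀ i ∈ J, s i = 0 ∨ s i = 1 ∨ s i = 3 ∨ s i = 4) ∧
    ¬ 3 ∣ (J.filter (fun i => s i = 4)).card ∧ N = ∑ i ∈ J, s i * Lam i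

lemma inS_of {ι : Type} [Fintype ι] [DecidableEq ι] (g : ι → ℕ) (hg : Function.Injective g)
    (s : ι → ℕ) (hs : ∀ i, s i = 0 ∨ s i = 1 ∨ s i = 3 ∨ s i = 4)
    (h3 : ¬ 3 ∣ (Finset.univ.filter (fun i => s i = 4)).card) :
    InS (∑ i, s i * Lam (g i)) := by
  classical
  refine ⟨Finset.univ.image g, Function.extend g s 0, ?_, ?_, ?_⟩
  · intro i hi
    obtain ⟨p, _, rfl⟩ := Finset.mem_image.1 hi
    rw [hg.extend_apply]
    exact hs p
  · have h1 : (Finset.univ.image g).filter (fun i => Function.extend g s 0 i = 4)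
        = (Finset.univ.filter (fun i => s i = 4)).image g := by
      ext k
      simp only [Finset.mem_filter, Finset.mem_image, Finset.mem_univ, true_and]
      constructor
      · rintro ⟨⟨p, rfl⟩, h⟩
        rw [hg.extend_apply] at h
        exact ⟨p, h, rfl⟩
      · rintro ⟨p, h, rfl⟩
        refine ⟨⟨p, rfl⟩, ?_⟩
        rw [hg.extend_apply]; exact h
    rw [h1, Finset.card_image_of_injective _ hg]
    exact h3
  · rw [Finset.sum_image (fun a _ b _ h => hg h)]
    apply Finset.sum_congr rfl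
    intro p _
    rw [hg.extend_apply]

lemma avg_restrict' {n Ω : Type} [Fintype n] [DecidableEq n] [Fintype Ω] [Nonempty Ω]
    (p : n → Prop) [DecidablePred p] (H : ({a // p a} → Ω) → ℝ) :
    avg (fun u : n → Ω => H (fun k => u k)) = avg H := by
  have h1 := avg_equiv (Equiv.piEquivPiSubtypeProd p (fun _ => Ω))
    (fun q : ({a // p a} → Ω) × ({a // ¬ p a} → Ω) => H q.1)
  have h2 : avg (fun q : ({a // p a} → Ω) × ({a // ¬ p a} → Ω) => H q.1) = avg H := by
    rw [avg_prod]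
    apply avg_congr; intro x
    exact avg_const (Ω := ({a // ¬ p a} → Ω)) (H x)
  rw [h2] at h1
  rw [← h1]
  rfl

lemma exists_zeta : ∃ ζ : ℂ, ζ ^ 2 + ζ + 1 = 0 ∧ ‖ζ‖ = 1 := by
  refine ⟨⟨-1 / 2, Real.sqrt 3 / 2⟩, ?_, ?_⟩
  · have h : Real.sqrt 3 * Real.sqrt 3 = 3 := Real.mul_self_sqrt (by norm_num)
    apply Complex.ext
    · simp [sq, Complex.mul_re]
      nlinarith
    · simp [sq, Complex.mul_im]
      ring
  · have h : Real.sqrt 3 * Real.sqrt 3 = 3 := Real.mul_self_sqrt (by norm_num)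
    rw [Complex.norm_def, Complex.normSq_apply]
    simp only
    rw [show (-1 / 2 : ℝ) * (-1 / 2) + Real.sqrt 3 / 2 * (Real.sqrt 3 / 2) = 1 by nlinarith]
    simp

lemma sd_vals (p : Fin 3 × Fin 2) :
    sd p.1 p.2 = 0 ∨ sd p.1 p.2 = 1 ∨ sd p.1 p.2 = 3 ∨ sd p.1 p.2 = 4 := by
  revert p; decide

lemma wt_eq (ζ : ℂ) (p : Fin 3 × Fin 2) : wt ζ p.1 p.2 = if sd p.1 p.2 = 4 then ζ else 1 := by
  obtain ⟨a, b⟩ := p
  fin_cases a <;> fin_cases b <;> simp [wt, sd]

lemma prod_wt (ζ : ℂ) (ι : Type) [Fintype ι] (t : ι → Fin 3 × Fin 2) :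
    ∏ i, wt ζ (t i).1 (t i).2
      = ζ ^ (Finset.univ.filter (fun i => sd (t i).1 (t i).2 = 4)).card := by
  simp only [wt_eq]
  rw [Finset.prod_ite, Finset.prod_const, Finset.prod_const_one, mul_one]

theorem positivity_main {X : Type*} [MeasurableSpace X] (μ : Measure X) [IsProbabilityMeasure μ]
    {U : X → X} {A : Set X} (hU : MeasurePreserving U μ μ) (hA : MeasurableSet A)
    (hpos : 0 < μ A) : ∃ N, InS N ∧ 0 < nu μ U A N := by
  classical
  by_contra hcon
  push Not at hcon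
  have hzero : ∀ N, InS N → nu μ U A N = 0 := fun N hN =>
    le_antisymm (hcon N hN) (nu_nonneg μ U A N)
  set δ : ℝ := μ.real A with hδdef
  have hδ : 0 < δ := by
    rw [hδdef, Measure.real]
    exact ENNReal.toReal_pos hpos.ne' (measure_ne_top μ A)
  obtain ⟨ζ, hζ, hn⟩ := exists_zeta
  have hζ3 : ζ ^ 3 = 1 := by linear_combination (ζ - 1) * hζ
  obtain ⟨d, hd⟩ := dhj3 (δ / 2) (by linarith)
  set c : ℝ := δ / 2 / 4 ^ d with hc
  have hcpos : 0 < c := by positivity
  obtain ⟨m, hm⟩ : ∃ m : ℕ, (141 / 144 : ℝ) ^ m < c ^ 2 :=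
    exists_pow_lt_of_lt_one (by positivity) (by norm_num)
  let idx : Fin d × Fin m → ℕ := fun p => (finProdFinEquiv p : ℕ)
  have hidx : Function.Injective idx := by
    intro p q hpq
    exact finProdFinEquiv.injective (Fin.ext hpq)
  let ee : (Fin d × Fin m → Fin 3 × Fin 2) → Fin d → ℕ := fun t j =>
    ∑ i : Fin m, sd (t (j, i)).1 (t (j, i)).2 * Lam (idx (j, i))
  have h1 : ∀ t, δ / 2 ≤ ∑ φ : Fin d → Fin 3 ⊕ Unit, ind (∃ j, φ j = Sum.inr ()) *
      nu μ U A (st φ (ee t)) := by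
    intro t
    exact ip_roth μ hU hA δ hδ le_rfl d (fun D hD => hd (Fin d) (by simp) D hD) (ee t)
  have h2 : δ / 2 ≤ ∑ φ : Fin d → Fin 3 ⊕ Unit, ind (∃ j, φ j = Sum.inr ()) *
      avg (fun t => nu μ U A (st φ (ee t))) := by
    have h3 : avg (fun _ : Fin d × Fin m → Fin 3 × Fin 2 => δ / 2) ≤
        avg (fun t => ∑ φ : Fin d → Fin 3 ⊕ Unit, ind (∃ j, φ j = Sum.inr ()) *
      nu μ U A (st φ (ee t))) := avg_mono h1
    rw [avg_const, avg_sum] at h3
    refine h3.trans (le_of_eq ?_)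
    apply Finset.sum_congr rfl; intro φ _
    rw [avg_mul_left]
  obtain ⟨φ, hφ⟩ : ∃ φ : Fin d → Fin 3 ⊕ Unit, c ≤ ind (∃ j, φ j = Sum.inr ()) *
      avg (fun t => nu μ U A (st φ (ee t))) := by
    by_contra hcon2
    push Not at hcon2
    have h3 : ∑ φ : Fin d → Fin 3 ⊕ Unit, ind (∃ j, φ j = Sum.inr ()) *
      avg (fun t => nu μ U A (st φ (ee t))) < ∑ _φ : Fin d → Fin 3 ⊕ Unit, c :=
      Finset.sum_lt_sum_of_nonempty Finset.univ_nonempty fun φ _ => hcon2 φ
    have h4 : ∑ _φ : Fin d → Fin 3 ⊕ Unit, c = δ / 2 := by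
      rw [Finset.sum_const, Finset.card_univ, nsmul_eq_mul, Fintype.card_fun]
      simp only [Fintype.card_sum, Fintype.card_fin, Fintype.card_unit]
      rw [hc]
      push_cast
      norm_num
      field_simp
    linarith
  have hline : ∃ j, φ j = Sum.inr () := by
    by_contra hno
    rw [ind_false hno, zero_mul] at hφ
    linarith
  rw [ind_true hline, one_mul] at hφ
  obtain ⟨j0, hj0⟩ := hline
  -- the relevant coordinates
  have hst : ∀ t, st φ (ee t) = ∑ p : {p : Fin d × Fin m // φ p.1 = Sum.inr ()},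
      sd (t p).1 (t p).2 * Lam (idx p) := by
    intro t
    unfold st
    have e1 : ∑ p : {p : Fin d × Fin m // φ p.1 = Sum.inr ()},
        sd (t p).1 (t p).2 * Lam (idx p)
        = ∑ p : Fin d × Fin m, if φ p.1 = Sum.inr () then
          sd (t p).1 (t p).2 * Lam (idx p) else 0 := by
      rw [← Finset.sum_filter]
      exact (Finset.sum_subtype (p := fun p : Fin d × Fin m => φ p.1 = Sum.inr ()) _
        (by intro x; simp) (fun p : Fin d × Fin m => sd (t p).1 (t p).2 * Lam (idx p))).symm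
    rw [e1, Fintype.sum_prod_type]
    apply Finset.sum_congr rfl; intro j _
    cases hj : φ j with
    | inl a => simp [hj]
    | inr k => simp [hj, ee]
  have h5 : avg (fun t => nu μ U A (st φ (ee t)))
      = avg (fun t : {p : Fin d × Fin m // φ p.1 = Sum.inr ()} → Fin 3 × Fin 2 =>
        nu μ U A (∑ p, sd (t p).1 (t p).2 * Lam (idx p))) := by
    rw [← avg_restrict' (fun p : Fin d × Fin m => φ p.1 = Sum.inr ())
      (fun t : {p : Fin d × Fin m // φ p.1 = Sum.inr ()} → Fin 3 × Fin 2 =>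
        nu μ U A (∑ p, sd (t p).1 (t p).2 * Lam (idx p)))]
    apply avg_congr; intro t
    rw [hst]
  have h6 := decay μ ζ hζ hn hU hA {p : Fin d × Fin m // φ p.1 = Sum.inr ()}
    (fun p => Lam (idx p)) ?_
  · rw [← h5] at h6
    have h7 : m ≤ Fintype.card {p : Fin d × Fin m // φ p.1 = Sum.inr ()} := by
      have : Fintype.card (Fin m) ≤ Fintype.card {p : Fin d × Fin m // φ p.1 = Sum.inr ()} := by
        apply Fintype.card_le_of_injective
          (fun i : Fin m => (⟨(j0, i), hj0⟩ : {p : Fin d × Fin m // φ p.1 = Sum.inr ()}))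
        intro a b hab
        simpa using hab
      simpa using this
    have h8 : (141 / 144 : ℝ) ^ (Fintype.card {p : Fin d × Fin m // φ p.1 = Sum.inr ()})
        ≤ (141 / 144 : ℝ) ^ m := pow_le_pow_of_le_one (by norm_num) (by norm_num) h7
    have h9 : c ^ 2 ≤ (avg (fun t => nu μ U A (st φ (ee t)))) ^ 2 :=
      pow_le_pow_left₀ hcpos.le hφ 2
    linarith
  · intro t ht
    apply hzero
    apply inS_of (fun p : {p : Fin d × Fin m // φ p.1 = Sum.inr ()} => idx p)
      (fun a b hab => Subtype.ext (hidx hab)) (fun p => sd (t p).1 (t p).2)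
      (fun p => sd_vals _)
    intro hdiv
    apply ht
    rw [prod_wt]
    obtain ⟨k, hk⟩ := hdiv
    rw [hk, pow_mul, hζ3, one_pow]

end Pool.Agent.Helper406.Rec
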