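import Pool.Agent.Helper406.Rec.Basic

/-!
Extremal densities, the pigeonhole lemma and the multidimensional Sperner theorem
(density version, inside words on three letters).
-/

namespace Pool.Agent.Helper406.Rec

open Finset

/-- classes closed under pull-back by subspaces -/
def Closed (P : ∀ ι : Type, (Pt ι → Prop) → Prop) : Prop :=
  ∀ (κ ι : Type) (V : Sub κ ι) (A : Pt ι → Prop), P ι A → P κ (fun u => A (V.app u))

def Good (P : ∀ ι : Type, (Pt ι → Prop) → Prop) (c : ℝ) : Prop :=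
  ∃ n : ℕ, ∀ m ≥ n, ∀ A : Pt (Fin m) → Prop, P (Fin m) A → avg (fun x => ind (A x)) ≤ c

lemma le_card_mul_avg {Ω : Type} [Fintype Ω] [Nonempty Ω] (f : Ω → ℝ) (hf : ∀ x, 0 ≤ f x) (x : Ω) :
    f x ≤ (Fintype.card Ω : ℝ) * avg f := by
  have hc : (0:ℝ) < (Fintype.card Ω : ℝ) := by exact_mod_cast Fintype.card_pos
  unfold avg
  rw [mul_div_cancel₀ _ hc.ne']
  exact Finset.single_le_sum (f := f) (fun i _ => hf i) (Finset.mem_univ x)

theorem regular (P : ∀ ι : Type, (Pt ι → Prop) → Prop) (hP : Closed P) (β : ℝ) (hβ : 0 < β)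
    (hnot : ∀ n : ℕ, ∃ m ≥ n, ∃ A : Pt (Fin m) → Prop, P (Fin m) A ∧
      β ≤ avg (fun x => ind (A x))) :
    ∃ δ : ℝ, β ≤ δ ∧
      (∀ γ > 0, ∃ n : ℕ, ∀ (ι : Type) [Fintype ι] [DecidableEq ι], n ≤ Fintype.card ι →
        ∀ A : Pt ι → Prop, P ι A → avg (fun x => ind (A x)) ≤ δ + γ) ∧
      (∀ (M : ℕ) (η : ℝ), 0 < η → ∀ n0 : ℕ, ∃ N ≥ n0, ∃ A : Pt (Fin M ⊕ Fin N) → Prop,
        P _ A ∧ ∀ x : Pt (Fin M), δ - η ≤ avg (fun y : Pt (Fin N) => ind (A (jn x y)))) := by
  classical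
  set S : Set ℝ := {c | 0 ≤ c ∧ Good P c} with hS
  have hSne : S.Nonempty := by
    refine ⟨1, by norm_num, 0, ?_⟩
    intro m _ A _
    exact avg_le_one fun x => ind_le_one _
  have hSb : BddBelow S := ⟨0, fun c hc => hc.1⟩
  have hSβ : ∀ c ∈ S, β ≤ c := by
    rintro c ⟨_, n, hn⟩
    obtain ⟨m, hm, A, hA, hAβ⟩ := hnot n
    exact hAβ.trans (hn m hm A hA)
  set δ := sInf S with hδ
  have hδβ : β ≤ δ := le_csInf hSne hSβ
  have E1 : ∀ γ > 0, ∃ n : ℕ, ∀ (ι : Type) [Fintype ι] [DecidableEq ι], n ≤ Fintype.card ι →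
        ∀ A : Pt ι → Prop, P ι A → avg (fun x => ind (A x)) ≤ δ + γ := by
    intro γ hγ
    obtain ⟨c, hc, hcl⟩ := exists_lt_of_csInf_lt hSne (show sInf S < δ + γ by linarith)
    obtain ⟨_, n, hn⟩ := hc
    refine ⟨n, ?_⟩
    intro ι _ _ hι A hA
    have e : ι ≃ Fin (Fintype.card ι) := Fintype.equivFin ι
    have h1 := hn (Fintype.card ι) hι (fun u => A ((Sub.ofEquiv e).app u)) (hP _ _ _ _ hA)
    have h2 : avg (fun x : Pt (Fin (Fintype.card ι)) => ind (A ((Sub.ofEquiv e).app x)))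
        = avg (fun x => ind (A x)) := avg_reindex e (fun x => ind (A x))
    rw [h2] at h1
    linarith
  refine ⟨δ, hδβ, E1, ?_⟩
  intro M η hη n0
  have h3 : (0:ℝ) < 3 ^ M := by positivity
  set γ : ℝ := η / (2 * 3 ^ M) with hγdef
  have hγ : 0 < γ := by positivity
  obtain ⟨n1, hn1⟩ := E1 γ hγ
  have hex : ∃ m ≥ n1 + n0 + M, ∃ A : Pt (Fin m) → Prop, P (Fin m) A ∧
      δ - γ ≤ avg (fun x => ind (A x)) := by
    by_contra hcon
    push Not at hcon
    obtain ⟨m, hm, A, hA, hAβ⟩ := hnot (n1 + n0 + M)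
    have h1 := hcon m hm A hA
    have h2 : δ - γ ∈ S := by
      refine ⟨by linarith, n1 + n0 + M, ?_⟩
      intro m hm A hA
      exact (hcon m hm A hA).le
    have := csInf_le hSb h2
    linarith
  obtain ⟨m, hm, A, hA, hAδ⟩ := hex
  have hcard : Fintype.card (Fin m) = Fintype.card (Fin M ⊕ Fin (m - M)) := by
    simp
    omega
  have e : Fin m ≃ Fin M ⊕ Fin (m - M) := Fintype.equivOfCardEq hcard
  refine ⟨m - M, by omega, fun u => A ((Sub.ofEquiv e).app u), hP _ _ _ _ hA, ?_⟩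
  intro x
  have h2 : avg (fun x : Pt (Fin M ⊕ Fin (m - M)) => ind (A ((Sub.ofEquiv e).app x)))
      = avg (fun x => ind (A x)) := avg_reindex e (fun x => ind (A x))
  rw [avg_jn] at h2
  have h4 : ∀ x : Pt (Fin M), avg (fun y : Pt (Fin (m - M)) =>
      ind (A ((Sub.ofEquiv e).app (jn x y)))) ≤ δ + γ := by
    intro x
    have h5 := hP _ _ (subR x (Sub.idd (Fin (m - M)))) _
      (hP _ _ (Sub.ofEquiv e) A hA)
    have h6 := hn1 (Fin (m - M)) (by simp; omega) _ h5
    simpa only [subR_app, Sub.idd_app] using h6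
  have h5 : avg (fun x : Pt (Fin M) => δ + γ - avg (fun y : Pt (Fin (m - M)) =>
      ind (A ((Sub.ofEquiv e).app (jn x y))))) ≤ 2 * γ := by
    rw [avg_sub, h2, avg_const]
    linarith
  have h6 := le_card_mul_avg (fun x : Pt (Fin M) => δ + γ - avg (fun y : Pt (Fin (m - M)) =>
      ind (A ((Sub.ofEquiv e).app (jn x y))))) (fun x => by have := h4 x; linarith) x
  have h7 : (Fintype.card (Pt (Fin M)) : ℝ) = 3 ^ M := by
    simp
  rw [h7] at h6
  have h8 : (3:ℝ) ^ M * (2 * γ) = η := by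
    rw [hγdef]; field_simp
  have h9 : (3:ℝ) ^ M * avg (fun x : Pt (Fin M) => δ + γ - avg (fun y : Pt (Fin (m - M)) =>
      ind (A ((Sub.ofEquiv e).app (jn x y))))) ≤ η := by
    rw [← h8]
    exact mul_le_mul_of_nonneg_left h5 h3.le
  linarith

theorem pigeon {Ω : Type} [Fintype Ω] [Nonempty Ω] (K : ℕ) (B : Fin (K + 1) → Ω → Prop)
    (h : 2 ≤ ∑ i, avg (fun x => ind (B i x))) :
    ∃ i j, i < j ∧ 1 / ((K + 1 : ℝ) ^ 2) ≤ avg (fun x => ind (B i x ∧ B j x)) := by
  classical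
  by_contra hcon
  push Not at hcon
  have hsym : ∀ i j, i ≠ j → avg (fun x => ind (B i x ∧ B j x)) ≤ 1 / ((K + 1 : ℝ) ^ 2) := by
    intro i j hij
    rcases lt_or_gt_of_ne hij with h1 | h1
    · exact (hcon i j h1).le
    · have h2 := (hcon j i h1).le
      have h3 : avg (fun x => ind (B i x ∧ B j x)) = avg (fun x => ind (B j x ∧ B i x)) :=
        avg_congr fun x => ind_congr and_comm
      rw [h3]; exact h2
  have hpt : ∀ x, 3 * (∑ i, ind (B i x)) - 4 + ∑ i, ind (B i x)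
      ≤ ∑ i, ∑ j, ind (B i x ∧ B j x) := by
    intro x
    have h1 : ∑ i, ∑ j, ind (B i x ∧ B j x) = (∑ i, ind (B i x)) ^ 2 := by
      rw [sq, Finset.sum_mul_sum]
      apply Finset.sum_congr rfl; intro i _
      apply Finset.sum_congr rfl; intro j _
      rw [ind_and]
    rw [h1]
    nlinarith [sq_nonneg ((∑ i, ind (B i x)) - 2)]
  have h2 := avg_mono hpt
  have h3 : avg (fun x => 3 * (∑ i, ind (B i x)) - 4 + ∑ i, ind (B i x))
      = 3 * (∑ i, avg (fun x => ind (B i x))) - 4 + ∑ i, avg (fun x => ind (B i x)) := by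
    rw [avg_add, avg_sub, avg_mul_left, avg_const, avg_sum]
  have h4 : avg (fun x => ∑ i, ∑ j, ind (B i x ∧ B j x))
      = ∑ i, ∑ j, avg (fun x => ind (B i x ∧ B j x)) := by
    rw [avg_sum]
    apply Finset.sum_congr rfl; intro i _
    rw [avg_sum]
  rw [h3, h4] at h2
  have h5 : ∀ i, ∑ j, avg (fun x => ind (B i x ∧ B j x))
      ≤ avg (fun x => ind (B i x)) + (K + 1 : ℝ) * (1 / ((K + 1 : ℝ) ^ 2)) := by
    intro i
    have h6 : ∀ j, avg (fun x => ind (B i x ∧ B j x)) ≤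
        (if j = i then avg (fun x => ind (B i x)) else 0) + 1 / ((K + 1 : ℝ) ^ 2) := by
      intro j
      by_cases hij : j = i
      · subst hij
        simp only [and_self, if_true]
        have : (0:ℝ) ≤ 1 / ((K + 1 : ℝ) ^ 2) := by positivity
        linarith
      · simp only [hij, if_false, zero_add]
        exact hsym i j (Ne.symm hij)
    calc ∑ j, avg (fun x => ind (B i x ∧ B j x)) ≤ ∑ j,
          ((if j = i then avg (fun x => ind (B i x)) else 0) + 1 / ((K + 1 : ℝ) ^ 2)) :=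
          Finset.sum_le_sum fun j _ => h6 j
      _ = _ := by
          rw [Finset.sum_add_distrib]
          simp
  have h6 : ∑ i, ∑ j, avg (fun x => ind (B i x ∧ B j x))
      ≤ ∑ i, avg (fun x => ind (B i x)) + (K + 1 : ℝ) * ((K + 1 : ℝ) * (1 / ((K + 1 : ℝ) ^ 2))) := by
    calc _ ≤ ∑ i, (avg (fun x => ind (B i x)) + (K + 1 : ℝ) * (1 / ((K + 1 : ℝ) ^ 2))) :=
          Finset.sum_le_sum fun i _ => h5 i
      _ = _ := by
          rw [Finset.sum_add_distrib]
          simp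
  have h7 : (K + 1 : ℝ) * ((K + 1 : ℝ) * (1 / ((K + 1 : ℝ) ^ 2))) = 1 := by
    field_simp
  rw [h7] at h6
  linarith

/-- no full two-letter cube of dimension `m` -/
def NoCube (m : ℕ) (ι : Type) (A : Pt ι → Prop) : Prop :=
  ∀ V : Sub (Fin m) ι, ¬ ∀ u : Pt (Fin m), (∀ k, u k ≠ 2) → A (V.app u)

lemma noCube_closed (m : ℕ) : Closed (NoCube m) := by
  intro κ ι V A hA U hU
  apply hA (V.comp U)
  intro u hu
  rw [Sub.comp_app]
  exact hU u hu

/-- points of the chain -/
def chn (K : ℕ) (i : ℕ) : Pt (Fin K) := fun a => if (a : ℕ) < i then 1 else 0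

theorem sperner (m : ℕ) : ∀ β : ℝ, 0 < β → ∃ M : ℕ, ∀ (ι : Type) [Fintype ι] [DecidableEq ι],
    M ≤ Fintype.card ι → ∀ E : Pt ι → Prop, β ≤ avg (fun x => ind (E x)) →
      ∃ V : Sub (Fin m) ι, ∀ u : Pt (Fin m), (∀ k, u k ≠ 2) → E (V.app u) := by
  induction m with
  | zero =>
    intro β hβ
    refine ⟨0, ?_⟩
    intro ι _ _ _ E hE
    obtain ⟨x, hx⟩ := exists_gt_of_lt_avg (fun x => ind (E x)) 0 (lt_of_lt_of_le hβ hE)
    have hEx : E x := by
      by_contra hcon
      rw [ind_false hcon] at hx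
      exact lt_irrefl _ hx
    refine ⟨⟨fun i => Sum.inl (x i), fun k => k.elim0⟩, ?_⟩
    intro u _
    exact hEx
  | succ m ih =>
    intro β hβ
    by_contra hcon
    push Not at hcon
    have hnot : ∀ n : ℕ, ∃ m' ≥ n, ∃ A : Pt (Fin m') → Prop, NoCube (m + 1) (Fin m') A ∧
      β ≤ avg (fun x => ind (A x)) := by
      intro n
      obtain ⟨ι, i1, i2, hι, E, hE, hno⟩ := hcon n
      have e : ι ≃ Fin (Fintype.card ι) := Fintype.equivFin ι
      refine ⟨Fintype.card ι, hι, fun u => E ((Sub.ofEquiv e).app u), ?_, ?_⟩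
      · apply noCube_closed
        intro V hV
        obtain ⟨u, hu, hu'⟩ := hno V
        exact hu' (hV u hu)
      · have h2 : avg (fun x : Pt (Fin (Fintype.card ι)) => ind (E ((Sub.ofEquiv e).app x)))
            = avg (fun x => ind (E x)) := avg_reindex e (fun x => ind (E x))
        rw [h2]; exact hE
    obtain ⟨δ, hδ, _, hR⟩ := regular _ (noCube_closed (m + 1)) β hβ hnot
    have hδ0 : 0 < δ := lt_of_lt_of_le hβ hδ
    obtain ⟨K, hK⟩ := exists_nat_ge (4 / δ)
    obtain ⟨M', hM'⟩ := ih (1 / ((K + 1 : ℝ) ^ 2)) (by positivity)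
    obtain ⟨N, hN, A, hA, hslice⟩ := hR K (δ / 2) (by linarith) M'
    have hsum : 2 ≤ ∑ i : Fin (K + 1), avg (fun y : Pt (Fin N) => ind (A (jn (chn K i) y))) := by
      have h1 : ∑ _i : Fin (K + 1), (δ / 2) ≤
          ∑ i : Fin (K + 1), avg (fun y : Pt (Fin N) => ind (A (jn (chn K i) y))) := by
        apply Finset.sum_le_sum
        intro i _
        have := hslice (chn K i)
        linarith
      have h2 : ∑ _i : Fin (K + 1), (δ / 2) = (K + 1 : ℝ) * (δ / 2) := by
        simp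
      have h3 : 4 ≤ (K : ℝ) * δ := by
        rw [div_le_iff₀ hδ0] at hK
        exact hK
      rw [h2] at h1
      nlinarith
    obtain ⟨i, j, hij, hpair⟩ := pigeon K (fun i (y : Pt (Fin N)) => A (jn (chn K i) y)) hsum
    obtain ⟨V, hV⟩ := hM' (Fin N) (by simpa using hN) _ hpair
    have hi : (i : ℕ) < j := hij
    have hjK : (j : ℕ) < K + 1 := j.2
    let W : Sub (Fin (m + 1)) (Fin K ⊕ Fin N) :=
      { φ := Sum.elim
          (fun a => if (a : ℕ) < i then Sum.inl 1 else if (a : ℕ) < j then Sum.inr 0 else Sum.inl 0)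
          (fun b => Sum.elim Sum.inl (fun k : Fin m => Sum.inr k.succ) (V.φ b))
        surj := by
          intro k
          refine Fin.cases ?_ (fun k => ?_) k
          · refine ⟨Sum.inl ⟨i, by omega⟩, ?_⟩
            simp [hi]
          · obtain ⟨b, hb⟩ := V.surj k
            refine ⟨Sum.inr b, ?_⟩
            simp [hb] }
    apply hA W
    intro u hu
    have hu0 : u 0 = 0 ∨ u 0 = 1 := by
      have h2 := hu 0
      generalize u 0 = t at h2
      revert h2
      revert t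
      decide
    have hVu := hV (fun k => u k.succ) (fun k => hu k.succ)
    have happ : ∀ t : ℕ, (u 0 = 0 ∧ t = i) ∨ (u 0 = 1 ∧ t = j) →
        W.app u = jn (chn K t) (V.app (fun k => u k.succ)) := by
      intro t ht
      funext a
      cases a with
      | inl a =>
        simp only [Sub.app, W, jn, chn, Sum.elim_inl]
        rcases ht with ⟨h0, rfl⟩ | ⟨h0, rfl⟩
        · by_cases h1 : (a : ℕ) < i
          · simp [h1]
          · by_cases h2 : (a : ℕ) < j
            · simp [h1, h2, h0]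
            · simp [h1, h2]
        · by_cases h1 : (a : ℕ) < i
          · have h2 : (a : ℕ) < j := by omega
            simp [h1, h2]
          · by_cases h2 : (a : ℕ) < j
            · simp [h1, h2, h0]
            · simp [h1, h2]
      | inr b =>
        simp only [Sub.app, W, jn, Sum.elim_inr]
        cases hb : V.φ b with
        | inl c => simp
        | inr k => simp
    rcases hu0 with h0 | h0
    · rw [happ i (Or.inl ⟨h0, rfl⟩)]
      exact hVu.1
    · rw [happ j (Or.inr ⟨h0, rfl⟩)]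
      exact hVu.2

end Pool.Agent.Helper406.Rec
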